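import Pool.Agent.Helper58.FX.Re.R1

/-!
# FX-14: invariant functions are constant; atoms
-/

set_option autoImplicit false
open MeasureTheory Filter Topology Helper17.LevelSets
open scoped InnerProductSpace ComplexConjugate ENNReal

namespace Helper58.FXP.H85

open Helper58.FX

section Circle

variable {μ : Measure Tor}

/-- the projection onto the invariant vectors, on characters -/
lemma PE_ev [IsProbabilityMeasure μ] (h2 : MeasurePreserving (T 2) μ μ)
    (h3 : MeasurePreserving (T 3) μ μ) (hE : Erg (ft μ)) (m : ℤ) :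
    PE (UU h2) (UU h3) 1 1 (ev μ m) = ft μ m • ev μ 0 := by
  set P := PE (UU h2) (UU h3) 1 1 with hP
  have hUV := St.commute_UU h2 h3
  have h1 := St.mean_ergodic hUV (α := 1) (β := 1) (by simp) (by simp) (ev μ m)
  rw [← hP] at h1
  -- the norm of the projection
  have h4 : Tendsto (fun N : ℕ => ⟪ev μ m, ((N : ℂ) ^ 2)⁻¹ •
      ∑ s ∈ box N, ((conj (1 : ℂ)) ^ s.1 * (conj (1 : ℂ)) ^ s.2) •
        act (UU h2) (UU h3) s (ev μ m)⟫_ℂ) atTop (𝓝 ⟪ev μ m, P (ev μ m)⟫_ℂ) :=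
    Filter.Tendsto.inner tendsto_const_nhds h1
  have h5 : ∀ N : ℕ, ⟪ev μ m, ((N : ℂ) ^ 2)⁻¹ •
      ∑ s ∈ box N, ((conj (1 : ℂ)) ^ s.1 * (conj (1 : ℂ)) ^ s.2) •
        act (UU h2) (UU h3) s (ev μ m)⟫_ℂ =
      (∑ s ∈ box N, ft μ (m * (sc s - 1))) / (N : ℂ) ^ 2 := by
    intro N
    rw [inner_smul_right, inner_sum, div_eq_inv_mul]
    congr 1
    refine Finset.sum_congr rfl fun s _ => ?_
    rw [St.act_ev, map_one, one_pow, one_pow, one_mul, one_smul, St.inner_ev]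
    congr 1
    ring
  simp only [h5] at h4
  obtain ⟨E, e1, e2, -, -⟩ := St.me h2 h3 m
  have h6 : (E : ℂ) = ((‖ft μ m‖ ^ 2 : ℝ) : ℂ) := tendsto_nhds_unique e1 (hE m)
  have h7 : ⟪ev μ m, P (ev μ m)⟫_ℂ = ((‖ft μ m‖ ^ 2 : ℝ) : ℂ) := by
    rw [← h6]
    exact tendsto_nhds_unique h4 e2
  -- the unit is invariant
  have h0 : P (ev μ 0) = ev μ 0 := by
    rw [hP]
    refine (Submodule.starProjection_eq_self_iff (K := Eg (UU h2) (UU h3) 1 1)).2 ?_
    rw [mem_Eg, one_smul]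
    have a1 := St.act_ev h2 h3 (1, 0) 0
    have a2 := St.act_ev h2 h3 (0, 1) 0
    rw [mul_zero] at a1 a2
    constructor
    · simpa [act] using a1
    · simpa [act] using a2
  have hsa : ∀ u v, ⟪P u, v⟫_ℂ = ⟪u, P v⟫_ℂ := fun u v => by
    rw [hP]
    exact Submodule.inner_starProjection_left_eq_right _ u v
  have hid : ∀ u, P (P u) = P u := fun u => by
    rw [hP]
    exact (Submodule.starProjection_eq_self_iff (K := Eg (UU h2) (UU h3) 1 1)).2
      (Submodule.starProjection_apply_mem _ _)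
  have h8 : ⟪P (ev μ m), P (ev μ m)⟫_ℂ = ((‖ft μ m‖ ^ 2 : ℝ) : ℂ) := by
    rw [hsa, hid, h7]
  have h9 : ⟪ev μ 0, P (ev μ m)⟫_ℂ = ft μ m := by
    rw [← hsa, h0, St.inner_ev, sub_zero]
  have h10 : ⟪P (ev μ m), ev μ 0⟫_ℂ = conj (ft μ m) := by
    rw [← h9, inner_conj_symm]
  have h11 : ⟪ev μ 0, ev μ 0⟫_ℂ = 1 := by
    rw [inner_self_eq_norm_sq_to_K, St.norm_ev]
    simp
  rw [← sub_eq_zero, ← inner_self_eq_zero (𝕜 := ℂ)]
  rw [inner_sub_left, inner_sub_right, inner_sub_right, inner_smul_left, inner_smul_left,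
    inner_smul_right, inner_smul_right, h8, h9, h10, h11]
  have h12 : ((‖ft μ m‖ ^ 2 : ℝ) : ℂ) = conj (ft μ m) * ft μ m := by
    rw [Complex.conj_mul']
    push_cast
    rfl
  rw [h12]
  ring

/-- FX-14 -/
theorem const_of_inv [IsProbabilityMeasure μ] (h2 : MeasurePreserving (T 2) μ μ)
    (h3 : MeasurePreserving (T 3) μ μ) (hE : Erg (ft μ)) (v : Lp ℂ 2 μ)
    (hv2 : UU h2 v = v) (hv3 : UU h3 v = v) : ∃ c : ℂ, v = c • ev μ 0 := by
  set P := PE (UU h2) (UU h3) 1 1 with hP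
  let K : Submodule ℂ (Lp ℂ 2 μ) :=
    (Submodule.span ℂ {ev μ 0}).comap (P : Lp ℂ 2 μ →ₗ[ℂ] Lp ℂ 2 μ)
  have hKc : IsClosed (K : Set (Lp ℂ 2 μ)) :=
    (Submodule.closed_of_finiteDimensional (Submodule.span ℂ {ev μ 0})).preimage P.continuous
  have hK : Submodule.span ℂ (Set.range (ev μ)) ≤ K := by
    rw [Submodule.span_le]
    rintro _ ⟨m, rfl⟩
    show P (ev μ m) ∈ Submodule.span ℂ {ev μ 0}
    rw [hP, PE_ev h2 h3 hE]
    exact Submodule.smul_mem _ _ (Submodule.mem_span_singleton_self _)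
  have hK2 : (Submodule.span ℂ (Set.range (ev μ))).topologicalClosure ≤ K :=
    Submodule.topologicalClosure_minimal _ hK hKc
  rw [St.span_ev] at hK2
  have hv : P v ∈ Submodule.span ℂ {ev μ 0} := hK2 (Submodule.mem_top (x := v))
  have hPv : P v = v := by
    rw [hP]
    refine (Submodule.starProjection_eq_self_iff (K := Eg (UU h2) (UU h3) 1 1)).2 ?_
    rw [mem_Eg, one_smul]
    exact ⟨hv2, hv3⟩
  rw [hPv] at hv
  obtain ⟨c, hc⟩ := Submodule.mem_span_singleton.1 hv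
  exact ⟨c, hc.symm⟩

lemma ae_preimage (n : ℕ) (h : MeasurePreserving (T n) μ μ) [IsProbabilityMeasure μ] (q : ℤ) :
    (T n ⁻¹' {x : Tor | q • x = 0} : Set Tor) =ᵐ[μ] {x : Tor | q • x = 0} := by
  have hm : MeasurableSet {x : Tor | q • x = 0} :=
    (isClosed_singleton.preimage (continuous_zsmul q)).measurableSet
  have h1 : {x : Tor | q • x = 0} ⊆ T n ⁻¹' {x : Tor | q • x = 0} := by
    intro x hx
    show q • (n • x) = 0
    rw [smul_comm, show q • x = 0 from hx, smul_zero]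
  exact (ae_eq_of_subset_of_measure_ge h1 (h.measure_preimage hm.nullMeasurableSet).le
    hm.nullMeasurableSet (measure_ne_top _ _)).symm

/-- FX-14 -/
theorem atom_one [IsProbabilityMeasure μ] (h2 : MeasurePreserving (T 2) μ μ)
    (h3 : MeasurePreserving (T 3) μ μ) (hE : Erg (ft μ)) {x : Tor} (hx : μ {x} ≠ 0) :
    ∃ m : ℕ, 1 ≤ m ∧ ft μ m = 1 := by
  have h6 : μ.map (fun x : Tor => (6 : ℤ) • x) = μ := by
    have h := (h2.comp h3).map_eq
    have e : (T 2 ∘ T 3) = fun x : Tor => (6 : ℤ) • x := by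
      funext x
      show 2 • (3 • x) = (6 : ℤ) • x
      rw [smul_smul]
      norm_num
      rfl
    rwa [e] at h
  obtain ⟨k, hk, hpos⟩ := Helper91.TTT.atom_periodic h6 hx
  set q : ℤ := (6 : ℤ) ^ k - 1 with hq
  set A : Set Tor := {x | q • x = 0} with hA
  have hAm : MeasurableSet A :=
    (isClosed_singleton.preimage (continuous_zsmul q)).measurableSet
  let v : Lp ℂ 2 μ := indicatorConstLp 2 hAm (measure_ne_top μ A) (1 : ℂ)
  have hv : (v : Tor → ℂ) =ᵐ[μ] A.indicator fun _ => (1 : ℂ) := indicatorConstLp_coeFn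
  have hinv : ∀ (n : ℕ) (h : MeasurePreserving (T n) μ μ), UU h v = v := by
    intro n h
    apply Lp.ext
    have e1 : (UU h v : Tor → ℂ) =ᵐ[μ] (v : Tor → ℂ) ∘ T n :=
      Lp.coeFn_compMeasurePreserving v h
    have e2 : (v : Tor → ℂ) ∘ T n =ᵐ[μ] (A.indicator fun _ => (1 : ℂ)) ∘ T n :=
      h.quasiMeasurePreserving.ae_eq_comp hv
    have e3 : (A.indicator fun _ => (1 : ℂ)) ∘ T n = (T n ⁻¹' A).indicator fun _ => (1 : ℂ) := rfl
    have e4 : (T n ⁻¹' A).indicator (fun _ => (1 : ℂ)) =ᵐ[μ] A.indicator fun _ => (1 : ℂ) :=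
      indicator_ae_eq_of_ae_eq_set (ae_preimage n h q)
    rw [e3] at e2
    exact e1.trans (e2.trans (e4.trans hv.symm))
  obtain ⟨c, hc⟩ := const_of_inv h2 h3 hE v (hinv 2 h2) (hinv 3 h3)
  have h7 : ∀ᵐ x ∂μ, A.indicator (fun _ => (1 : ℂ)) x = c := by
    have e1 : (v : Tor → ℂ) =ᵐ[μ] c • (ev μ 0 : Tor → ℂ) := by
      rw [hc]
      exact Lp.coeFn_smul c (ev μ 0)
    filter_upwards [hv, e1, St.ev_coe (μ := μ) 0] with x a1 a2 a3
    rw [← a1, a2, Pi.smul_apply, a3]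
    simp
  have hc1 : c = 1 := by
    by_contra hc1
    apply hpos
    rw [measure_eq_zero_iff_ae_notMem]
    filter_upwards [h7] with x hx hxA
    rw [Set.indicator_of_mem hxA] at hx
    exact hc1 hx.symm
  rw [hc1] at h7
  have h8 : ∀ᵐ x ∂μ, (fourier q x : ℂ) = 1 := by
    filter_upwards [h7] with x hx
    have hxA : x ∈ A := by
      by_contra hxA
      rw [Set.indicator_of_notMem hxA] at hx
      exact zero_ne_one hx
    rw [fourier_apply, show q • x = 0 from hxA]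
    simp
  have hq1 : (1 : ℤ) ≤ q := by
    have : (6 : ℤ) ^ 1 ≤ 6 ^ k := pow_le_pow_right₀ (by norm_num) hk
    rw [hq]
    linarith
  refine ⟨q.toNat, by omega, ?_⟩
  rw [Int.toNat_of_nonneg (by omega), ft, integral_congr_ae h8]
  simp

end Circle

end Helper58.FXP.H85
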