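import Mathlib
import Pool.Agent.Helper58.FX.Re.R2

set_option autoImplicit false
open MeasureTheory Filter Topology Helper17.LevelSets
open scoped InnerProductSpace ComplexConjugate ENNReal

/-! FX-15 (project FX, MP_81910f_an): joint eigenfunctions have constant modulus and the joint
eigenspaces are finite dimensional.  Uses the stub `const_of_inv`. -/

namespace Helper58.FXP.H5
open Helper58.FX

variable {μ : Measure Tor}

lemma UU_coe {n : ℕ} (h : MeasurePreserving (T n) μ μ) (f : Lp ℂ 2 μ) :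
    (UU h f : Tor → ℂ) =ᵐ[μ] fun x => f (T n x) :=
  Lp.coeFn_compMeasurePreserving f h

lemma ev_zero_coe [IsProbabilityMeasure μ] :
    (ev μ 0 : Tor → ℂ) =ᵐ[μ] fun _ => (1 : ℂ) := by
  have h := ContinuousMap.coeFn_toLp (𝕜 := ℂ) (E := ℂ) (p := 2) μ (fourier (T := (1 : ℝ)) 0)
  filter_upwards [h] with x hx
  have : ev μ 0 = ContinuousMap.toLp (E := ℂ) 2 μ ℂ (fourier 0) := rfl
  rw [this, hx]
  exact fourier_zero

/-- an invariant essentially bounded function is constant almost everywhere -/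
lemma const_ae [IsProbabilityMeasure μ] (h2 : MeasurePreserving (T 2) μ μ)
    (h3 : MeasurePreserving (T 3) μ μ) (hE : Erg (ft μ)) {f : Tor → ℂ} (hf : MemLp f 2 μ)
    (hf2 : ∀ᵐ x ∂μ, f (T 2 x) = f x) (hf3 : ∀ᵐ x ∂μ, f (T 3 x) = f x) :
    ∃ c : ℂ, ∀ᵐ x ∂μ, f x = c := by
  have key : ∀ {n : ℕ} (h : MeasurePreserving (T n) μ μ), (∀ᵐ x ∂μ, f (T n x) = f x) →
      UU h (hf.toLp f) = hf.toLp f := by
    intro n h hn
    refine Lp.ext ?_
    have h1 := UU_coe h (hf.toLp f)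
    have h4 := hf.coeFn_toLp
    have h5 := h.quasiMeasurePreserving.ae_eq_comp h4
    filter_upwards [h1, h4, h5, hn] with x hx1 hx4 hx5 hx6
    rw [hx1, hx4, ← hx6]
    exact hx5
  obtain ⟨c, hc⟩ := St.const_of_inv h2 h3 hE (hf.toLp f) (key h2 hf2) (key h3 hf3)
  refine ⟨c, ?_⟩
  have h4 := hf.coeFn_toLp
  have h6 := Lp.coeFn_smul c (ev μ 0)
  filter_upwards [h4, h6, ev_zero_coe (μ := μ)] with x hx4 hx6 hx7
  rw [← hx4, hc, hx6, Pi.smul_apply, hx7, smul_eq_mul, mul_one]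

lemma eig_ae {n : ℕ} (h : MeasurePreserving (T n) μ μ) {v : Lp ℂ 2 μ} {α : ℂ}
    (hv : UU h v = α • v) : ∀ᵐ x ∂μ, v (T n x) = α * v x := by
  have h1 := UU_coe h v
  have h2 := Lp.coeFn_smul α v
  rw [← hv] at h2
  filter_upwards [h1, h2] with x hx1 hx2
  rw [← hx1, hx2, Pi.smul_apply, smul_eq_mul]

lemma eig_norm {n : ℕ} (h : MeasurePreserving (T n) μ μ) {v : Lp ℂ 2 μ} {α : ℂ}
    (hv : UU h v = α • v) (h0 : v ≠ 0) : ‖α‖ = 1 := by
  have h1 : ‖UU h v‖ = ‖v‖ := (UU h).norm_map v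
  rw [hv, norm_smul] at h1
  have h2 : ‖v‖ ≠ 0 := norm_ne_zero_iff.mpr h0
  exact mul_right_cancel₀ h2 (by rw [h1, one_mul])

/-- FX-15 -/
theorem norm_const [IsProbabilityMeasure μ] (h2 : MeasurePreserving (T 2) μ μ)
    (h3 : MeasurePreserving (T 3) μ μ) (hE : Erg (ft μ)) {α β : ℂ} {v : Lp ℂ 2 μ}
    (hv : v ∈ Eg (UU h2) (UU h3) α β) : ∃ c : ℝ, ∀ᵐ x ∂μ, ‖v x‖ = c := by
  by_cases h0 : v = 0
  · refine ⟨0, ?_⟩
    subst h0
    filter_upwards [Lp.coeFn_zero ℂ 2 μ] with x hx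
    rw [hx]; simp
  obtain ⟨hva, hvb⟩ := mem_Eg.mp hv
  have ha := eig_norm h2 hva h0
  have hb := eig_norm h3 hvb h0
  have hmem : MemLp (fun x => ((‖v x‖ : ℝ) : ℂ)) 2 μ := (Lp.memLp v).norm.ofReal
  obtain ⟨c, hc⟩ := const_ae h2 h3 hE hmem
    (by
      filter_upwards [eig_ae h2 hva] with x hx
      rw [hx, norm_mul, ha, one_mul])
    (by
      filter_upwards [eig_ae h3 hvb] with x hx
      rw [hx, norm_mul, hb, one_mul])
  refine ⟨c.re, ?_⟩
  filter_upwards [hc] with x hx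
  rw [← hx, Complex.ofReal_re]

/-- FX-15 -/
theorem fd_Eg [IsProbabilityMeasure μ] (h2 : MeasurePreserving (T 2) μ μ)
    (h3 : MeasurePreserving (T 3) μ μ) (hE : Erg (ft μ)) (α β : ℂ) :
    FiniteDimensional ℂ (Eg (UU h2) (UU h3) α β) := by
  by_cases hex : ∃ v ∈ Eg (UU h2) (UU h3) α β, v ≠ 0
  · obtain ⟨v, hv, hv0⟩ := hex
    have hle : Eg (UU h2) (UU h3) α β ≤ Submodule.span ℂ {v} := by
      intro w hw
      obtain ⟨c, hc⟩ := norm_const h2 h3 hE hv
      obtain ⟨d, hd⟩ := norm_const h2 h3 hE hw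
      obtain ⟨hva, hvb⟩ := mem_Eg.mp hv
      obtain ⟨hwa, hwb⟩ := mem_Eg.mp hw
      have ha := eig_norm h2 hva hv0
      have hb := eig_norm h3 hvb hv0
      have hc0 : c ≠ 0 := by
        rintro rfl
        apply hv0
        refine Lp.ext ?_
        filter_upwards [hc, Lp.coeFn_zero ℂ 2 μ] with x hx hx'
        rw [hx', norm_eq_zero.mp hx]; simp
      have hmem : MemLp (fun x => w x * conj (v x)) 2 μ := by
        refine (memLp_const (d * c : ℝ)).of_le ?_ ?_
        · exact (Lp.memLp w).1.mul (Complex.continuous_conj.comp_aestronglyMeasurable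
            (Lp.memLp v).1)
        · filter_upwards [hc, hd] with x hx hx'
          rw [norm_mul, RCLike.norm_conj, hx, hx', Real.norm_eq_abs]
          exact le_abs_self _
      have hinv : ∀ {n : ℕ} {γ : ℂ}, ‖γ‖ = 1 → (∀ᵐ x ∂μ, v (T n x) = γ * v x) →
          (∀ᵐ x ∂μ, w (T n x) = γ * w x) →
          ∀ᵐ x ∂μ, w (T n x) * conj (v (T n x)) = w x * conj (v x) := by
        intro n γ hγ h5 h6
        filter_upwards [h5, h6] with x hx5 hx6
        rw [hx5, hx6, map_mul]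
        have h7 : γ * conj γ = 1 := by
          rw [Complex.mul_conj, Complex.normSq_eq_norm_sq, hγ]; norm_num
        calc γ * w x * (conj γ * conj (v x)) = (γ * conj γ) * (w x * conj (v x)) := by ring
          _ = _ := by rw [h7, one_mul]
      obtain ⟨k, hk⟩ := const_ae h2 h3 hE hmem
        (hinv ha (eig_ae h2 hva) (eig_ae h2 hwa)) (hinv hb (eig_ae h3 hvb) (eig_ae h3 hwb))
      rw [Submodule.mem_span_singleton]
      refine ⟨k / (c : ℂ) ^ 2, ?_⟩
      refine Lp.ext ?_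
      filter_upwards [hc, hk, Lp.coeFn_smul (k / (c : ℂ) ^ 2) v] with x hx hx' hx''
      rw [hx'', Pi.smul_apply, smul_eq_mul, ← hx']
      have h8 : conj (v x) * v x = (c : ℂ) ^ 2 := by
        rw [mul_comm, Complex.mul_conj, Complex.normSq_eq_norm_sq, hx]; norm_num
      have h9 : (c : ℂ) ≠ 0 := by exact_mod_cast hc0
      calc w x * conj (v x) / (c : ℂ) ^ 2 * v x = w x * (conj (v x) * v x) / (c : ℂ) ^ 2 := by
            ring
        _ = w x := by rw [h8]; field_simp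
    exact Submodule.finiteDimensional_of_le hle
  · have hbot : Eg (UU h2) (UU h3) α β = ⊥ := by
      rw [Submodule.eq_bot_iff]
      intro v hv
      by_contra h0
      exact hex ⟨v, hv, h0⟩
    rw [hbot]
    infer_instance

end Helper58.FXP.H5
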