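import Mathlib
import Pool.Agent.Helper58.FX.Re.R3

/-!
# CV-4: an ergodic component without atoms
-/

set_option autoImplicit false
open MeasureTheory Filter Topology Helper17.LevelSets
open scoped InnerProductSpace ComplexConjugate ENNReal ComplexOrder

namespace Helper58.FXP.H77
open Helper58.FX Helper58.FXP.H43

section L2

variable {ν : Measure Tor}

lemma l2_sq [IsProbabilityMeasure ν] (v : Lp ℂ 2 ν) : ∫ x, ‖v x‖ ^ 2 ∂ν = ‖v‖ ^ 2 := by
  have h1 : ⟪v, v⟫_ℂ = ((∫ x, ‖v x‖ ^ 2 ∂ν : ℝ) : ℂ) := by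
    refine Eq.trans ?_ (integral_ofReal (𝕜 := ℂ) (μ := ν) (f := fun x => ‖v x‖ ^ 2))
    rw [L2.inner_def]
    refine integral_congr_ae (Eventually.of_forall fun x => ?_)
    show ⟪v x, v x⟫_ℂ = _
    rw [inner_self_eq_norm_sq_to_K]
    push_cast
    rfl
  have h2 : ⟪v, v⟫_ℂ = ((‖v‖ ^ 2 : ℝ) : ℂ) := by
    rw [inner_self_eq_norm_sq_to_K]
    push_cast
    rfl
  exact Complex.ofReal_injective (h1.symm.trans h2)

lemma integrable_sq [IsProbabilityMeasure ν] (v : Lp ℂ 2 ν) :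
    Integrable (fun x => ‖v x‖ ^ 2) ν := by
  have := (Lp.memLp v).integrable_norm_pow (by norm_num)
  simpa using this

lemma ae_tendsto_of_le [IsProbabilityMeasure ν] {f : ℕ → Lp ℂ 2 ν} {g : Lp ℂ 2 ν}
    {j0 : ℕ} (h : ∀ j, j0 ≤ j → ‖f j - g‖ ≤ (1 / 2 : ℝ) ^ j) :
    ∀ᵐ x ∂ν, Tendsto (fun j => (f j : Tor → ℂ) x) atTop (𝓝 ((g : Tor → ℂ) x)) := by
  set w : ℕ → Lp ℂ 2 ν := fun j => f (j + j0) - g with hw
  have hsum : ∫⁻ x, ∑' j : ℕ, ENNReal.ofReal (‖(w j : Tor → ℂ) x‖ ^ 2) ∂ν ≠ ∞ := by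
    rw [lintegral_tsum]
    · have h1 : ∀ j, ∫⁻ x, ENNReal.ofReal (‖(w j : Tor → ℂ) x‖ ^ 2) ∂ν
          ≤ ENNReal.ofReal ((1 / 4 : ℝ) ^ j) := by
        intro j
        rw [← ofReal_integral_eq_lintegral_ofReal (integrable_sq _)
          (Eventually.of_forall fun x => by positivity), l2_sq]
        refine ENNReal.ofReal_le_ofReal ?_
        have h2 : ‖w j‖ ≤ (1 / 2 : ℝ) ^ j := by
          refine (h (j + j0) (by omega)).trans ?_
          exact pow_le_pow_of_le_one (by norm_num) (by norm_num) (by omega)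
        calc ‖w j‖ ^ 2 ≤ ((1 / 2 : ℝ) ^ j) ^ 2 := pow_le_pow_left₀ (norm_nonneg _) h2 2
          _ = (1 / 4 : ℝ) ^ j := by rw [← pow_mul, mul_comm, pow_mul]; norm_num
      refine ne_top_of_le_ne_top ?_ (ENNReal.tsum_le_tsum h1)
      have hs : Summable (fun j : ℕ => (1 / 4 : ℝ) ^ j) :=
        summable_geometric_of_lt_one (by norm_num) (by norm_num)
      rw [← ENNReal.ofReal_tsum_of_nonneg (fun j => by positivity) hs]
      exact ENNReal.ofReal_ne_top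
    · intro j
      exact ((Lp.stronglyMeasurable (w j)).measurable.norm.pow_const 2).ennreal_ofReal.aemeasurable
  have hfin : ∀ᵐ x ∂ν, ∑' j : ℕ, ENNReal.ofReal (‖(w j : Tor → ℂ) x‖ ^ 2) < ∞ := by
    refine ae_lt_top' ?_ hsum
    refine (Measurable.tsum fun j => ?_).aemeasurable
    exact ((Lp.stronglyMeasurable (w j)).measurable.norm.pow_const 2).ennreal_ofReal
  have hsub : ∀ᵐ x ∂ν, ∀ j : ℕ, (w j : Tor → ℂ) x = (f (j + j0) : Tor → ℂ) x - g x := by
    rw [ae_all_iff]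
    intro j
    exact Lp.coeFn_sub _ _
  filter_upwards [hfin, hsub] with x hx hs
  have h1 := ENNReal.tendsto_atTop_zero_of_tsum_ne_top hx.ne
  have h2 : Tendsto (fun j => ‖(w j : Tor → ℂ) x‖ ^ 2) atTop (𝓝 0) := by
    have h3 := (ENNReal.tendsto_toReal (ENNReal.zero_ne_top)).comp h1
    simp only [ENNReal.toReal_zero] at h3
    refine h3.congr fun j => ?_
    simp only [Function.comp]
    rw [ENNReal.toReal_ofReal (by positivity)]
  have h4 : Tendsto (fun j => ‖(w j : Tor → ℂ) x‖) atTop (𝓝 0) := by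
    have h5 := h2.sqrt
    rw [Real.sqrt_zero] at h5
    refine h5.congr fun j => ?_
    exact Real.sqrt_sq (norm_nonneg _)
  have h6 : Tendsto (fun j => (w j : Tor → ℂ) x) atTop (𝓝 0) :=
    tendsto_zero_iff_norm_tendsto_zero.2 h4
  rw [← tendsto_add_atTop_iff_nat j0]
  have h7 := h6.add_const ((g : Tor → ℂ) x)
  rw [zero_add] at h7
  refine h7.congr fun j => ?_
  rw [hs j]
  ring

end L2

/-! ### positive definite functions -/

/-- averages of characters at a point -/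
noncomputable def aN (N : ℕ) (x : Tor) (n : ℤ) : ℂ :=
  ((N : ℂ) ^ 2)⁻¹ * ∑ s ∈ box N, (fourier (sc s * n) x : ℂ)

lemma pdz_fourier (x : Tor) (k : ℤ) : PDZ (fun n => (fourier (k * n) x : ℂ)) := by
  intro s c
  have h : ∀ i j : ℤ, (fourier (k * (i - j)) x : ℂ)
      = (fourier (k * i) x : ℂ) * star (fourier (k * j) x : ℂ) := by
    intro i j
    rw [show k * (i - j) = k * i + -(k * j) by ring, fourier_add, fourier_neg]
    rfl
  have h2 : ∑ i ∈ s, ∑ j ∈ s, star (c j) * c i * (fourier (k * (i - j)) x : ℂ)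
      = (∑ i ∈ s, c i * (fourier (k * i) x : ℂ)) *
        star (∑ i ∈ s, c i * (fourier (k * i) x : ℂ)) := by
    rw [star_sum, Finset.sum_mul_sum]
    refine Finset.sum_congr rfl fun i _ => Finset.sum_congr rfl fun j _ => ?_
    rw [h, star_mul']
    ring
  show (0 : ℂ) ≤ _
  rw [h2, ← starRingEnd_apply, Complex.mul_conj]
  exact Complex.zero_le_real.2 (Complex.normSq_nonneg _)

lemma pdz_sum {ι : Type*} (F : Finset ι) (f : ι → ℤ → ℂ) (hf : ∀ i ∈ F, PDZ (f i)) :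
    PDZ (fun n => ∑ i ∈ F, f i n) := by
  intro s c
  have h : ∑ i ∈ s, ∑ j ∈ s, star (c j) * c i * (∑ l ∈ F, f l (i - j))
      = ∑ l ∈ F, ∑ i ∈ s, ∑ j ∈ s, star (c j) * c i * f l (i - j) := by
    simp only [Finset.mul_sum]
    rw [Finset.sum_comm' (s := F) (t' := s) (s' := fun _ => F) (t := fun _ => s) (by simp)]
    refine Finset.sum_congr rfl fun i _ => ?_
    rw [Finset.sum_comm]
  show (0 : ℂ) ≤ _
  rw [h]
  exact Finset.sum_nonneg fun l hl => hf l hl s c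

lemma pdz_smul {f : ℤ → ℂ} (hf : PDZ f) {r : ℝ} (hr : 0 ≤ r) : PDZ (fun n => (r : ℂ) * f n) := by
  intro s c
  have h : ∑ i ∈ s, ∑ j ∈ s, star (c j) * c i * ((r : ℂ) * f (i - j))
      = (r : ℂ) * ∑ i ∈ s, ∑ j ∈ s, star (c j) * c i * f (i - j) := by
    rw [Finset.mul_sum]
    refine Finset.sum_congr rfl fun i _ => ?_
    rw [Finset.mul_sum]
    refine Finset.sum_congr rfl fun j _ => ?_
    ring
  show (0 : ℂ) ≤ _
  rw [h]
  exact mul_nonneg (Complex.zero_le_real.2 hr) (hf s c)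

lemma pdz_aN (N : ℕ) (x : Tor) : PDZ (aN N x) := by
  have h := pdz_smul (pdz_sum (box N) (fun s n => (fourier (sc s * n) x : ℂ))
    (fun s _ => pdz_fourier x (sc s))) (r := ((N : ℝ) ^ 2)⁻¹) (by positivity)
  have e : (fun n => (((((N : ℝ) ^ 2)⁻¹ : ℝ) : ℂ)) * ∑ s ∈ box N, (fourier (sc s * n) x : ℂ))
      = aN N x := by
    funext n
    unfold aN
    push_cast
    rfl
  rwa [e] at h

lemma pdz_lim {f : ℕ → ℤ → ℂ} {q : ℤ → ℂ} (hf : ∀ j, PDZ (f j))
    (h : ∀ n, Tendsto (fun j => f j n) atTop (𝓝 (q n))) : PDZ q := by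
  intro s c
  refine ge_of_tendsto' (x := atTop) (f := fun j => ∑ i ∈ s, ∑ k ∈ s, star (c k) * c i *
    f j (i - k)) ?_ (fun j => hf j s c)
  refine tendsto_finsetSum _ fun i _ => tendsto_finsetSum _ fun k _ => ?_
  exact (h _).const_mul _

/-! ### the projections of the characters -/

section Circle

variable {ν : Measure Tor}

/-- the projection of a character to the invariant functions -/
noncomputable def hh [IsProbabilityMeasure ν] (h2 : MeasurePreserving (T 2) ν ν)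
    (h3 : MeasurePreserving (T 3) ν ν) (n : ℤ) : Lp ℂ 2 ν := PE (UU h2) (UU h3) 1 1 (ev ν n)

lemma Av_coe [IsProbabilityMeasure ν] (h2 : MeasurePreserving (T 2) ν ν)
    (h3 : MeasurePreserving (T 3) ν ν) (N : ℕ) (n : ℤ) :
    ((Av (UU h2) (UU h3) N (ev ν n) : Lp ℂ 2 ν) : Tor → ℂ) =ᵐ[ν] fun x => aN N x n := by
  have h : Av (UU h2) (UU h3) N (ev ν n) = ContinuousMap.toLp (E := ℂ) 2 ν ℂ
      (((N : ℂ) ^ 2)⁻¹ • ∑ s ∈ box N, fourier (sc s * n)) := by
    unfold Av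
    rw [map_smul, map_sum]
    simp only [St.act_ev]
    rfl
  rw [h]
  refine (ContinuousMap.coeFn_toLp ν _).trans (Eventually.of_forall fun x => ?_)
  simp [aN]

lemma hh_zero [IsProbabilityMeasure ν] (h2 : MeasurePreserving (T 2) ν ν)
    (h3 : MeasurePreserving (T 3) ν ν) : ev ν 0 ∈ Eg (UU h2) (UU h3) 1 1 := by
  rw [mem_Eg, one_smul]
  have e2 := St.act_ev h2 h3 (1, 0) 0
  have e3 := St.act_ev h2 h3 (0, 1) 0
  rw [mul_zero] at e2 e3
  refine ⟨?_, ?_⟩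
  · simpa [act] using e2
  · simpa [act] using e3

lemma hh_mul [IsProbabilityMeasure ν] (h2 : MeasurePreserving (T 2) ν ν)
    (h3 : MeasurePreserving (T 3) ν ν) (s : ℕ × ℕ) (n : ℤ) :
    hh h2 h3 (sc s * n) = hh h2 h3 n := by
  unfold hh
  rw [← St.act_ev h2 h3, pe_act]

lemma inner_ev_zero [IsProbabilityMeasure ν] (v : Lp ℂ 2 ν) :
    ⟪ev ν 0, v⟫_ℂ = ∫ x, (v : Tor → ℂ) x ∂ν := by
  rw [L2.inner_def]
  refine integral_congr_ae ?_
  filter_upwards [St.ev_coe (μ := ν) 0] with x hx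
  rw [hx]
  simp

lemma integral_hh [IsProbabilityMeasure ν] (h2 : MeasurePreserving (T 2) ν ν)
    (h3 : MeasurePreserving (T 3) ν ν) (n : ℤ) :
    ∫ x, (hh h2 h3 n : Tor → ℂ) x ∂ν = ft ν n := by
  rw [← inner_ev_zero, hh, inner_pe _ _ (hh_zero h2 h3), St.inner_ev, sub_zero]

lemma integrable_hh [IsProbabilityMeasure ν] (h2 : MeasurePreserving (T 2) ν ν)
    (h3 : MeasurePreserving (T 3) ν ν) (n : ℤ) :
    Integrable (hh h2 h3 n : Tor → ℂ) ν :=
  (Lp.memLp (hh h2 h3 n)).integrable (by norm_num)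

/-- a subsequence converging almost everywhere -/
lemma exists_seq [IsProbabilityMeasure ν] (h2 : MeasurePreserving (T 2) ν ν)
    (h3 : MeasurePreserving (T 3) ν ν) :
    ∃ N : ℕ → ℕ, ∀ᵐ x ∂ν, ∀ n : ℤ,
      Tendsto (fun j => aN (N j) x n) atTop (𝓝 ((hh h2 h3 n : Tor → ℂ) x)) := by
  have hUV := St.commute_UU h2 h3
  have hex : ∀ j : ℕ, ∃ N : ℕ, ∀ n ∈ Finset.Icc (-(j : ℤ)) j,
      ‖Av (UU h2) (UU h3) N (ev ν n) - hh h2 h3 n‖ ≤ (1 / 2 : ℝ) ^ j := by
    intro j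
    have h : ∀ᶠ N : ℕ in atTop, ∀ n ∈ Finset.Icc (-(j : ℤ)) j,
        ‖Av (UU h2) (UU h3) N (ev ν n) - hh h2 h3 n‖ ≤ (1 / 2 : ℝ) ^ j := by
      rw [Filter.eventually_all_finset]
      intro n _
      have ht := av_tendsto hUV (ev ν n)
      have h1 := (tendsto_iff_norm_sub_tendsto_zero.1 ht)
      exact h1.eventually_le_const (by positivity)
    exact h.exists
  choose N hN using hex
  refine ⟨N, ?_⟩
  rw [ae_all_iff]
  intro n
  have h1 := ae_tendsto_of_le (ν := ν) (f := fun j => Av (UU h2) (UU h3) (N j) (ev ν n))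
    (g := hh h2 h3 n) (j0 := n.natAbs) (fun j hj => hN j n (by rw [Finset.mem_Icc]; omega))
  have h4 : ∀ᵐ x ∂ν, ∀ j : ℕ,
      ((Av (UU h2) (UU h3) (N j) (ev ν n) : Lp ℂ 2 ν) : Tor → ℂ) x = aN (N j) x n := by
    rw [ae_all_iff]
    intro j
    exact Av_coe h2 h3 (N j) n
  filter_upwards [h1, h4] with x hx1 hx2
  refine hx1.congr fun j => ?_
  exact hx2 j

/-- the functions attached to the points -/
lemma good_ae [IsProbabilityMeasure ν] (h2 : MeasurePreserving (T 2) ν ν)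
    (h3 : MeasurePreserving (T 3) ν ν) :
    ∀ᵐ x ∂ν, PDZ (fun n => (hh h2 h3 n : Tor → ℂ) x) ∧ (hh h2 h3 0 : Tor → ℂ) x = 1 ∧
      (∀ n, (hh h2 h3 (2 * n) : Tor → ℂ) x = (hh h2 h3 n : Tor → ℂ) x) ∧
      ∀ n, (hh h2 h3 (3 * n) : Tor → ℂ) x = (hh h2 h3 n : Tor → ℂ) x := by
  obtain ⟨N, hN⟩ := exists_seq h2 h3
  have h0 : hh h2 h3 0 = ev ν 0 := by
    unfold hh PE
    exact (Submodule.starProjection_eq_self_iff (K := Eg (UU h2) (UU h3) 1 1)).2 (hh_zero h2 h3)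
  filter_upwards [hN, St.ev_coe (μ := ν) 0] with x hx hx0
  refine ⟨pdz_lim (fun j => pdz_aN (N j) x) hx, ?_, fun n => ?_, fun n => ?_⟩
  · rw [h0, hx0]
    simp
  · have := hh_mul h2 h3 (1, 0) n
    rw [show sc (1, 0) = 2 by simp [sc]] at this
    rw [this]
  · have := hh_mul h2 h3 (0, 1) n
    rw [show sc (0, 1) = 3 by simp [sc]] at this
    rw [this]

/-- the defect of ergodicity -/
noncomputable def DD [IsProbabilityMeasure ν] (h2 : MeasurePreserving (T 2) ν ν)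
    (h3 : MeasurePreserving (T 3) ν ν) (m : ℤ) (M : ℕ) (x : Tor) : ℝ :=
  (EE (fun j => (hh h2 h3 (m * j) : Tor → ℂ) x) M).re - ‖(hh h2 h3 m : Tor → ℂ) x‖ ^ 2

lemma DD_nonneg [IsProbabilityMeasure ν] (h2 : MeasurePreserving (T 2) ν ν)
    (h3 : MeasurePreserving (T 3) ν ν) (m : ℤ) {M : ℕ} (hM : 1 ≤ M) :
    0 ≤ᵐ[ν] DD h2 h3 m M := by
  filter_upwards [good_ae h2 h3] with x hx
  obtain ⟨a1, a2, a3, a4⟩ := hx
  obtain ⟨μ, hμ, hft, m2, m3⟩ := St.exists_measure a1 a2 a3 a4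
  obtain ⟨E, -, -, e1, e2⟩ := St.me m2 m3 m
  have e3 := e2 M hM
  simp only [hft] at e1 e3
  show 0 ≤ DD h2 h3 m M x
  unfold DD
  linarith

lemma integrable_EE [IsProbabilityMeasure ν] (h2 : MeasurePreserving (T 2) ν ν)
    (h3 : MeasurePreserving (T 3) ν ν) (m : ℤ) (M : ℕ) :
    Integrable (fun x => EE (fun j => (hh h2 h3 (m * j) : Tor → ℂ) x) M) ν := by
  unfold EE
  refine Integrable.const_mul ?_ _
  exact integrable_finsetSum _ fun q _ => integrable_hh h2 h3 _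

lemma integral_EE [IsProbabilityMeasure ν] (h2 : MeasurePreserving (T 2) ν ν)
    (h3 : MeasurePreserving (T 3) ν ν) (m : ℤ) (M : ℕ) :
    ∫ x, EE (fun j => (hh h2 h3 (m * j) : Tor → ℂ) x) M ∂ν = EE (fun j => ft ν (m * j)) M := by
  unfold EE
  rw [integral_const_mul, integral_finsetSum]
  · congr 1
    exact Finset.sum_congr rfl fun q _ => integral_hh h2 h3 _
  · exact fun q _ => integrable_hh h2 h3 _

lemma integrable_DD [IsProbabilityMeasure ν] (h2 : MeasurePreserving (T 2) ν ν)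
    (h3 : MeasurePreserving (T 3) ν ν) (m : ℤ) (M : ℕ) : Integrable (DD h2 h3 m M) ν :=
  (integrable_EE h2 h3 m M).re.sub (integrable_sq _)

lemma integral_DD [IsProbabilityMeasure ν] (h2 : MeasurePreserving (T 2) ν ν)
    (h3 : MeasurePreserving (T 3) ν ν) (m : ℤ) :
    Tendsto (fun M => ∫ x, DD h2 h3 m M x ∂ν) atTop (𝓝 0) := by
  have hUV := St.commute_UU h2 h3
  have h1 : ∀ M, ∫ x, DD h2 h3 m M x ∂ν
      = ‖Av (UU h2) (UU h3) M (ev ν m)‖ ^ 2 - ‖hh h2 h3 m‖ ^ 2 := by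
    intro M
    have h := integral_sub (integrable_EE h2 h3 m M).re (integrable_sq (hh h2 h3 m))
    have h' : ∫ x, DD h2 h3 m M x ∂ν = _ := h
    rw [h', l2_sq]
    congr 1
    have h5 := integral_re (integrable_EE h2 h3 m M)
    rw [integral_EE, ee_eq h2 h3] at h5
    refine h5.trans ?_
    exact Complex.ofReal_re _
  simp only [h1]
  have ht := ((av_tendsto hUV (ev ν m)).norm.pow 2).sub_const (‖hh h2 h3 m‖ ^ 2)
  rw [show ‖PE (UU h2) (UU h3) 1 1 (ev ν m)‖ ^ 2 - ‖hh h2 h3 m‖ ^ 2 = 0 from sub_self _] at ht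
  exact ht

lemma erg_ae [IsProbabilityMeasure ν] (h2 : MeasurePreserving (T 2) ν ν)
    (h3 : MeasurePreserving (T 3) ν ν) :
    ∀ᵐ x ∂ν, ∀ m : ℤ, ∀ k : ℕ, ∃ M : ℕ, 1 ≤ M ∧ DD h2 h3 m M x ≤ 1 / ((k : ℝ) + 1) := by
  rw [ae_all_iff]
  intro m
  rw [ae_all_iff]
  intro k
  set ε : ℝ := 1 / ((k : ℝ) + 1) with hε
  have hε0 : 0 < ε := by positivity
  have h1 : ν.real {x | ¬ ∃ M : ℕ, 1 ≤ M ∧ DD h2 h3 m M x ≤ ε} = 0 := by
    refine le_antisymm ?_ measureReal_nonneg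
    have h2' : ∀ M : ℕ, 1 ≤ M → ν.real {x | ¬ ∃ M : ℕ, 1 ≤ M ∧ DD h2 h3 m M x ≤ ε}
        ≤ (∫ x, DD h2 h3 m M x ∂ν) / ε := by
      intro M hM
      rw [le_div_iff₀ hε0, mul_comm]
      refine le_trans ?_ (mul_meas_ge_le_integral_of_nonneg (DD_nonneg h2 h3 m hM)
        (integrable_DD h2 h3 m M) ε)
      refine mul_le_mul_of_nonneg_left ?_ hε0.le
      refine measureReal_mono ?_ (measure_ne_top _ _)
      intro x hx
      by_contra hx'
      exact hx ⟨M, hM, (not_le.1 hx').le⟩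
    have h3' : Tendsto (fun M => (∫ x, DD h2 h3 m M x ∂ν) / ε) atTop (𝓝 0) := by
      have := (integral_DD h2 h3 m).div_const ε
      rwa [zero_div] at this
    exact ge_of_tendsto h3' (eventually_atTop.2 ⟨1, h2'⟩)
  rw [measureReal_eq_zero_iff] at h1
  exact h1

/-- invariant functions equal to one -/
lemma ne_one_ae [IsProbabilityMeasure ν] (h2 : MeasurePreserving (T 2) ν ν)
    (h3 : MeasurePreserving (T 3) ν ν) (hna : ∀ x, ν {x} = 0) {m : ℕ} (hm : 1 ≤ m) :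
    ∀ᵐ x ∂ν, (hh h2 h3 m : Tor → ℂ) x ≠ 1 := by
  set B : Set Tor := {x | (hh h2 h3 m : Tor → ℂ) x = 1} with hB
  have hBm : MeasurableSet B :=
    (Lp.stronglyMeasurable (hh h2 h3 m)).measurable (measurableSet_singleton 1)
  let v : Lp ℂ 2 ν := indicatorConstLp 2 hBm (measure_ne_top ν B) (1 : ℂ)
  have hv : (v : Tor → ℂ) =ᵐ[ν] B.indicator fun _ => (1 : ℂ) := indicatorConstLp_coeFn
  have hmem := pe_mem (UU h2) (UU h3) (ev ν m)
  rw [mem_Eg, one_smul] at hmem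
  have hinv : ∀ (n : ℕ) (h : MeasurePreserving (T n) ν ν), UU h (hh h2 h3 m) = hh h2 h3 m →
      UU h v = v := by
    intro n h hn
    apply Lp.ext
    have e0 : ∀ᵐ x ∂ν, (hh h2 h3 m : Tor → ℂ) (T n x) = (hh h2 h3 m : Tor → ℂ) x := by
      have := Helper39.FX.UU_coe h (hh h2 h3 m)
      rw [hn] at this
      exact this.symm
    have e1 := Helper39.FX.UU_coe h v
    have e2 := Helper39.FX.ae_comp h hv
    filter_upwards [e0, e1, e2, hv] with x a0 a1 a2 a3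
    rw [a1, a2, a3]
    have : T n x ∈ B ↔ x ∈ B := by
      show (hh h2 h3 m : Tor → ℂ) (T n x) = 1 ↔ (hh h2 h3 m : Tor → ℂ) x = 1
      rw [a0]
    by_cases hx : x ∈ B
    · rw [Set.indicator_of_mem hx, Set.indicator_of_mem (this.2 hx)]
    · rw [Set.indicator_of_notMem hx, Set.indicator_of_notMem (fun h => hx (this.1 h))]
  have hvE : v ∈ Eg (UU h2) (UU h3) 1 1 := by
    rw [mem_Eg, one_smul]
    exact ⟨hinv 2 h2 hmem.1, hinv 3 h3 hmem.2⟩
  have hin := inner_pe (UU h2) (UU h3) hvE (ev ν m)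
  have i1 : ⟪v, PE (UU h2) (UU h3) 1 1 (ev ν m)⟫_ℂ = ∫ x in B, (hh h2 h3 m : Tor → ℂ) x ∂ν :=
    L2.inner_indicatorConstLp_one (𝕜 := ℂ) hBm (measure_ne_top ν B) _
  have i2 : ⟪v, ev ν m⟫_ℂ = ∫ x in B, (ev ν m : Tor → ℂ) x ∂ν :=
    L2.inner_indicatorConstLp_one (𝕜 := ℂ) hBm (measure_ne_top ν B) _
  have i3 : ∫ x in B, (hh h2 h3 m : Tor → ℂ) x ∂ν = ∫ x in B, (1 : ℂ) ∂ν :=
    setIntegral_congr_fun hBm fun x hx => hx
  have i4 : ∫ x in B, (ev ν m : Tor → ℂ) x ∂ν = ∫ x in B, (fourier (m : ℤ) x : ℂ) ∂ν := by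
    refine integral_congr_ae ?_
    exact ae_restrict_of_ae (St.ev_coe (μ := ν) (m : ℤ))
  have i5 : ∫ x in B, ((1 : ℂ) - fourier (m : ℤ) x) ∂ν = 0 := by
    have hc : Integrable (fun x : Tor => (fourier (m : ℤ) x : ℂ)) (ν.restrict B) :=
      Helper91.TTT.integrable_cont _ (fourier (m : ℤ)).continuous
    rw [integral_sub (integrable_const _) hc, ← i3, ← i1, hin, i2, i4, sub_self]
  have i6 : ∫ x in B, (1 - (fourier (m : ℤ) x : ℂ).re) ∂ν = 0 := by
    have hc : Integrable (fun x : Tor => (1 : ℂ) - (fourier (m : ℤ) x : ℂ)) (ν.restrict B) :=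
      (integrable_const _).sub
        (Helper91.TTT.integrable_cont _ (fourier (m : ℤ)).continuous)
    have h5 := integral_re hc
    rw [i5] at h5
    refine Eq.trans (integral_congr_ae (Eventually.of_forall fun x => ?_)) (h5.trans ?_)
    · show 1 - (fourier (m : ℤ) x : ℂ).re = RCLike.re ((1 : ℂ) - (fourier (m : ℤ) x : ℂ))
      simp
    · simp
  have hre : ∀ x : Tor, (fourier (m : ℤ) x : ℂ).re ≤ 1 := fun x => by
    refine (Complex.re_le_norm _).trans ?_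
    rw [Helper91.TTT.norm_fourier_apply]
  have i7 : ∀ᵐ x ∂(ν.restrict B), 1 - (fourier (m : ℤ) x : ℂ).re = 0 := by
    have hc : Integrable (fun x : Tor => 1 - (fourier (m : ℤ) x : ℂ).re) (ν.restrict B) :=
      (integrable_const _).sub
        (Helper91.TTT.integrable_cont _ (fourier (m : ℤ)).continuous).re
    exact (integral_eq_zero_iff_of_nonneg_ae (Eventually.of_forall fun x => sub_nonneg.2 (hre x))
      hc).1 i6
  rw [ae_restrict_iff' hBm] at i7
  have hfin : {u : Tor | m • u = 0}.Finite := AddCircle.finite_torsion 1 hm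
  have hnull : ν {u : Tor | m • u = 0} = 0 := by
    rw [← Set.biUnion_of_singleton {u : Tor | m • u = 0}]
    exact (measure_biUnion_null_iff hfin.countable).2 fun u _ => hna u
  have hnull' : ∀ᵐ x ∂ν, m • x ≠ 0 := by
    rw [ae_iff]
    simpa only [ne_eq, not_not] using hnull
  filter_upwards [i7, hnull'] with x hx1 hx2 hx3
  apply hx2
  have h5 := hx1 hx3
  have h6 : (fourier (m : ℤ) x : ℂ) = 1 := by
    have h7 : ‖(fourier (m : ℤ) x : ℂ)‖ = 1 := Helper91.TTT.norm_fourier_apply _ _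
    have h8 : (fourier (m : ℤ) x : ℂ).re = 1 := by linarith
    have h9 : (fourier (m : ℤ) x : ℂ).im = 0 := by
      have := Complex.sq_norm (fourier (m : ℤ) x : ℂ)
      rw [h7, Complex.normSq_apply, h8] at this
      nlinarith
    exact Complex.ext h8 h9
  rw [fourier_apply] at h6
  have h7 : AddCircle.toCircle ((m : ℤ) • x) = AddCircle.toCircle (0 : Tor) := by
    rw [AddCircle.toCircle_zero]
    apply Circle.ext
    rw [h6]
    simp
  have h8 := AddCircle.injective_toCircle one_ne_zero h7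
  rwa [natCast_zsmul] at h8

theorem exists_exlike [IsProbabilityMeasure ν]
    (h2 : MeasurePreserving (T 2) ν ν) (h3 : MeasurePreserving (T 3) ν ν)
    (hna : ∀ x, ν {x} = 0) (hne : ∃ n : ℤ, n ≠ 0 ∧ ft ν n ≠ 0) : ∃ q : ℤ → ℂ, ExLike q := by
  obtain ⟨n, hn0, hn⟩ := hne
  have hfr : ∃ᶠ x in ae ν, (hh h2 h3 n : Tor → ℂ) x ≠ 0 := by
    intro h
    apply hn
    rw [← integral_hh h2 h3]
    have : (fun x => (hh h2 h3 n : Tor → ℂ) x) =ᵐ[ν] fun _ => 0 := by
      filter_upwards [h] with x hx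
      exact not_not.1 hx
    rw [integral_congr_ae this]
    simp
  have h1 : ∀ᵐ x ∂ν, ∀ m : ℕ, 1 ≤ m → (hh h2 h3 m : Tor → ℂ) x ≠ 1 := by
    rw [ae_all_iff]
    intro m
    by_cases hm : 1 ≤ m
    · filter_upwards [ne_one_ae h2 h3 hna hm] with x hx _
      exact hx
    · exact Eventually.of_forall fun x h => absurd h hm
  obtain ⟨x, hx0, hx1, hx2, hx3⟩ :=
    (hfr.and_eventually ((good_ae h2 h3).and ((erg_ae h2 h3).and h1))).exists
  refine ⟨fun n => (hh h2 h3 n : Tor → ℂ) x, ?_⟩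
  have hcl := St.classify (p := fun _ => fun n => (hh h2 h3 n : Tor → ℂ) x)
    (q := fun n => (hh h2 h3 n : Tor → ℂ) x) (fun _ => hx1)
    (subset_closure ⟨(0, 0), rfl⟩) (fun m η hη => by
      obtain ⟨k, hk⟩ := exists_nat_one_div_lt hη
      obtain ⟨M, hM, hle⟩ := hx2 m k
      exact ⟨M, hM, hle.trans hk.le⟩)
  rcases hcl with h | ⟨m, hm, hm1⟩ | h
  · exact absurd (h n hn0) hx0
  · exact absurd hm1 (hx3 m hm)
  · exact h

end Circle

end Helper58.FXP.H77
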