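import Mathlib
import Pool.Agent.Helper58.FX.Re.R3

set_option autoImplicit false
set_option linter.unusedSectionVars false
open MeasureTheory Filter Topology Helper17.LevelSets
open scoped InnerProductSpace ComplexConjugate ENNReal

/-! FX-22: finitely many classes of limit functions -/

namespace Helper58.FXP.H61
open Helper58.FX

open scoped ComplexOrder in
lemma pdz_dilate {f : ℤ → ℂ} (hf : PDZ f) (h0 : f 0 = 1) (d : ℤ) : PDZ (fun k => f (k * d)) := by
  intro s c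
  rcases eq_or_ne d 0 with rfl | hd
  · have h1 : ∑ i ∈ s, ∑ j ∈ s, star (c j) * c i * f ((i - j) * 0) =
        ((‖∑ i ∈ s, c i‖ ^ 2 : ℝ) : ℂ) := by
      simp only [mul_zero, h0, mul_one]
      push_cast
      rw [← Complex.mul_conj', map_sum, Finset.sum_mul_sum]
      refine Finset.sum_congr rfl fun i _ => Finset.sum_congr rfl fun j _ => ?_
      rw [mul_comm]
      rfl
    rw [h1, ← Complex.ofReal_zero, Complex.real_le_real]
    positivity
  · have hinj : Function.Injective (fun i : ℤ => i * d) := fun a b h => mul_right_cancel₀ hd h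
    have h1 := hf (s.image (fun i => i * d)) (fun i => c (i / d))
    rw [Finset.sum_image (fun a _ b _ h => hinj h)] at h1
    simp only [Finset.sum_image (fun a _ b _ h => hinj h), Int.mul_ediv_cancel _ hd] at h1
    refine h1.trans_eq ?_
    refine Finset.sum_congr rfl fun i _ => Finset.sum_congr rfl fun j _ => ?_
    change _ = star (c j) * c i * f ((i - j) * d)
    rw [sub_mul]

lemma sum_half_pow_le (A : Finset ℕ) : ∑ m ∈ A, (1 / 2 : ℝ) ^ m ≤ 2 := by
  have h1 : Summable (fun m : ℕ => (1 / 2 : ℝ) ^ m) := summable_geometric_two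
  have h2 := h1.sum_le_tsum A (fun m _ => by positivity)
  rwa [tsum_geometric_two] at h2

lemma sc_ge (s : ℕ × ℕ) : 1 ≤ sc s := by
  unfold sc
  have h1 : (1 : ℤ) ≤ 2 ^ s.1 := one_le_pow₀ (by norm_num)
  have h2 : (1 : ℤ) ≤ 3 ^ s.2 := one_le_pow₀ (by norm_num)
  nlinarith

lemma cont_D (n : ℤ) (M : ℕ) :
    Continuous (fun q : ℤ → ℂ => (EE (fun j => q (n * j)) M).re - ‖q n‖ ^ 2) := by
  unfold EE
  refine Continuous.sub (Complex.continuous_re.comp ?_) ((continuous_apply n).norm.pow 2)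
  refine continuous_const.mul (continuous_finsetSum _ fun i _ => ?_)
  exact continuous_apply _

variable {μ : Measure Tor}

/-- FX-22 -/
theorem classes [IsProbabilityMeasure μ] (h2 : MeasurePreserving (T 2) μ μ)
    (h3 : MeasurePreserving (T 3) μ μ) (hE : Erg (ft μ)) (hI : Iso (ft μ))
    (hNA : ∀ m : ℕ, 1 ≤ m → ∀ ε : ℝ, 0 < ε → ∃ η : ℝ, 0 < η ∧
      Up {s | ‖ft μ (m * (sc s - 1)) - 1‖ < η} ε)
    (n : ℤ) (hn : n ≠ 0) (r : ℝ) (hr : 0 < r) (ε : ℝ) (hε : 0 < ε) :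
    ∃ C : Set (ℤ → ℂ), C.Finite ∧
      Up {s | (fun k : ℤ => ft μ (k * (sc s - 1))) ∉ C ∧ r ≤ ‖ft μ (n * (sc s - 1))‖} ε := by
  classical
  obtain ⟨hpd, hf0, hf2, hf3⟩ := St.pdz_ft (μ := μ) h2 h3
  let p : ℕ × ℕ → ℤ → ℂ := fun s k => ft μ (k * (sc s - 1))
  have hp : ∀ s, PDZ (p s) ∧ p s 0 = 1 ∧ (∀ n, p s (2 * n) = p s n) ∧
      ∀ n, p s (3 * n) = p s n := by
    intro s
    refine ⟨pdz_dilate hpd hf0 _, ?_, fun k => ?_, fun k => ?_⟩
    · change ft μ (0 * (sc s - 1)) = 1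
      rw [zero_mul, hf0]
    · change ft μ (2 * k * (sc s - 1)) = ft μ (k * (sc s - 1))
      rw [mul_assoc, hf2]
    · change ft μ (3 * k * (sc s - 1)) = ft μ (k * (sc s - 1))
      rw [mul_assoc, hf3]
  have hK : IsCompact (closure (Set.range p)) := by
    have h4 : IsCompact (Set.pi Set.univ (fun _ : ℤ => Metric.closedBall (0 : ℂ) 1)) :=
      isCompact_univ_pi fun _ => isCompact_closedBall _ _
    refine h4.of_isClosed_subset isClosed_closure (closure_minimal ?_ h4.isClosed)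
    rintro _ ⟨s, rfl⟩ k _
    rw [mem_closedBall_zero_iff]
    exact pdz_norm_le (hp s).1 (hp s).2.1 k
  let D : ℤ → ℕ → (ℤ → ℂ) → ℝ := fun n M q => (EE (fun j => q (n * j)) M).re - ‖q n‖ ^ 2
  have hD : ∀ n : ℤ, ∀ η : ℝ, 0 < η → ∀ ε : ℝ, 0 < ε → ∃ M : ℕ, 1 ≤ M ∧
      Up {s | η < D n M (p s)} ε := fun n η hη ε hε => St.approx_erg h2 h3 hE n hη hε
  -- the neighbourhoods
  have hpos : ∀ m : ℕ, (0 : ℝ) < ε / 4 * (1 / 2) ^ m := fun m => by positivity
  have hch : ∀ m : ℕ, ∃ η : ℝ, 0 < η ∧ (1 ≤ m →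
      Up {s | ‖ft μ (m * (sc s - 1)) - 1‖ < η} (ε / 4 * (1 / 2) ^ m)) := by
    intro m
    by_cases hm : 1 ≤ m
    · obtain ⟨η, h4, h5⟩ := hNA m hm _ (hpos m)
      exact ⟨η, h4, fun _ => h5⟩
    · exact ⟨1, one_pos, fun h => absurd h hm⟩
  choose η hη hUp using hch
  let W1 : Set (ℤ → ℂ) := {q | ‖q n‖ < r}
  let W2 : ℕ → Set (ℤ → ℂ) := fun m => {q | ‖q m - 1‖ < η m}
  have hW1 : IsOpen W1 := isOpen_lt (continuous_apply n).norm continuous_const
  have hW2 : ∀ m, IsOpen (W2 m) := fun m =>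
    isOpen_lt ((continuous_apply (m : ℤ)).sub continuous_const).norm continuous_const
  let T3 : Set (ℤ → ℂ) → (ℤ → ℂ) → Prop := fun W q₀ =>
    ∀ k : ℕ, dil (ft μ) ((k : ℤ) + 1) ∈ W → dil (ft μ) ((k : ℤ) + 1) = q₀
  let 𝒱 : Set (Set (ℤ → ℂ)) := {W | IsOpen W ∧ (W = W1 ∨ (∃ m : ℕ, 1 ≤ m ∧ W = W2 m) ∨
    ∃ q₀, T3 W q₀)}
  have hps : ∀ s, p s = (fun _ => 1) ∨ ∃ k : ℕ, p s = dil (ft μ) ((k : ℤ) + 1) := by
    intro s
    rcases eq_or_lt_of_le (sc_ge s) with h4 | h4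
    · left
      funext k
      change ft μ (k * (sc s - 1)) = 1
      rw [← h4, sub_self, mul_zero, hf0]
    · right
      refine ⟨(sc s - 2).toNat, ?_⟩
      have h5 : (((sc s - 2).toNat : ℕ) : ℤ) + 1 = sc s - 1 := by
        rw [Int.toNat_of_nonneg (by omega)]
        ring
      rw [h5]
      funext k
      change ft μ (k * (sc s - 1)) = ft μ ((sc s - 1) * k)
      rw [mul_comm]
  have hcov : ∀ q ∈ closure (Set.range p),
      (∀ n : ℤ, ∀ η : ℝ, 0 < η → ∃ M : ℕ, 1 ≤ M ∧ D n M q ≤ η) → ∃ W ∈ 𝒱, q ∈ W := by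
    intro q hq hDq
    have hone : ∀ m : ℕ, 1 ≤ m → q m = 1 → ∃ W ∈ 𝒱, q ∈ W := by
      intro m hm hqm
      refine ⟨W2 m, ⟨hW2 m, Or.inr (Or.inl ⟨m, hm, rfl⟩)⟩, ?_⟩
      change ‖q m - 1‖ < η m
      rw [hqm, sub_self, norm_zero]
      exact hη m
    rcases St.classify hp hq hDq with h4 | ⟨m, hm, hqm⟩ | h4
    · refine ⟨W1, ⟨hW1, Or.inl rfl⟩, ?_⟩
      change ‖q n‖ < r
      rw [h4 n hn, norm_zero]
      exact hr
    · exact hone m hm hqm
    · by_cases h5 : q (1 : ℕ) = 1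
      · exact hone 1 le_rfl h5
      · have h6 : Set.range p ⊆ {fun _ => 1} ∪
            Set.range (fun k : ℕ => dil (ft μ) ((k : ℤ) + 1)) := by
          rintro _ ⟨s, rfl⟩
          rcases hps s with h7 | ⟨k, h7⟩
          · exact Or.inl h7
          · exact Or.inr ⟨k, h7.symm⟩
        have h8 := closure_mono h6 hq
        rw [closure_union, closure_singleton] at h8
        rcases h8 with h8 | h8
        · exfalso
          apply h5
          rw [Set.mem_singleton_iff.1 h8]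
        · obtain ⟨W, hWo, hqW, hW⟩ := hI q h8 h4
          exact ⟨W, ⟨hWo, Or.inr (Or.inr ⟨q, hW⟩)⟩, hqW⟩
  obtain ⟨F, hF, hUF⟩ := St.finite_cover hK D cont_D hD 𝒱 (fun W hW => hW.1) hcov
    (half_pos hε)
  -- the finite set of functions
  let g : Set (ℤ → ℂ) → ℤ → ℂ := fun W => if h : ∃ q₀, T3 W q₀ then h.choose else fun _ => 1
  let mm : Set (ℤ → ℂ) → ℕ := fun W => if h : ∃ m : ℕ, 1 ≤ m ∧ W = W2 m then h.choose else 1
  let MF : Finset ℕ := (F.filter (fun W => ∃ m : ℕ, 1 ≤ m ∧ W = W2 m)).image mm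
  have hmm : ∀ W, (∃ m : ℕ, 1 ≤ m ∧ W = W2 m) → 1 ≤ mm W ∧ W = W2 (mm W) := by
    intro W h
    have h4 : mm W = h.choose := dif_pos h
    rw [h4]
    exact h.choose_spec
  refine ⟨insert (fun _ => 1) (g '' (F : Set (Set (ℤ → ℂ)))),
    (F.finite_toSet.image g).insert _, ?_⟩
  have hUp2 : Up (⋃ m ∈ MF, {s | ‖ft μ (m * (sc s - 1)) - 1‖ < η m})
      (∑ m ∈ MF, ε / 4 * (1 / 2) ^ m) := by
    apply St.up_biUnion
    intro m hm
    apply hUp m
    obtain ⟨W, hW, rfl⟩ := Finset.mem_image.1 hm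
    exact (hmm W (Finset.mem_filter.1 hW).2).1
  refine St.up_mono ?_ ?_ (St.up_union hUF hUp2)
  · rintro s ⟨hs1, hs2⟩
    by_cases h4 : ∀ W ∈ F, p s ∉ W
    · exact Or.inl h4
    · push Not at h4
      obtain ⟨W, hWF, hsW⟩ := h4
      obtain ⟨-, h5 | h5 | h5⟩ := hF W hWF
      · exfalso
        rw [h5] at hsW
        exact absurd hs2 (not_le.2 hsW)
      · right
        obtain ⟨h6, h7⟩ := hmm W h5
        rw [Set.mem_iUnion₂]
        refine ⟨mm W, Finset.mem_image_of_mem _ (Finset.mem_filter.2 ⟨hWF, h5⟩), ?_⟩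
        rw [h7] at hsW
        exact hsW
      · exfalso
        apply hs1
        rcases hps s with h6 | ⟨k, h6⟩
        · exact Or.inl h6
        · right
          refine ⟨W, hWF, ?_⟩
          have h7 : g W = h5.choose := dif_pos h5
          rw [h7]
          have h8 := h5.choose_spec k
          rw [← h6] at h8
          exact (h8 hsW).symm
  · rw [← Finset.mul_sum]
    have h4 := sum_half_pow_le MF
    nlinarith

end Helper58.FXP.H61
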