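import Mathlib
import Pool.Agent.Helper58.FX.Re.R4

set_option autoImplicit false
open MeasureTheory Filter Topology Helper17.LevelSets
open scoped InnerProductSpace ComplexConjugate ENNReal

namespace Helper58.FXP.H11
open Helper58.FX

section

variable {μ : Measure Tor} [IsProbabilityMeasure μ]
  {h2 : MeasurePreserving (T 2) μ μ} {h3 : MeasurePreserving (T 3) μ μ}

lemma inC_congr {f g : Tor → ℂ} (hf : InC h2 h3 f) (h : f =ᵐ[μ] g) : InC h2 h3 g := by
  obtain ⟨hf1, hf2⟩ := hf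
  have hg1 : MemLp g 2 μ := (memLp_congr_ae h).1 hf1
  refine ⟨hg1, ?_⟩
  rwa [← MemLp.toLp_congr hf1 hg1 h]

lemma inC_coe {v : Lp ℂ 2 μ} (hv : v ∈ Hc (UU h2) (UU h3)) : InC h2 h3 (v : Tor → ℂ) :=
  ⟨Lp.memLp v, by rwa [Lp.toLp_coeFn v (Lp.memLp v)]⟩

lemma inC_sub {f g : Tor → ℂ} (hf : InC h2 h3 f) (hg : InC h2 h3 g) :
    InC h2 h3 (fun x => f x - g x) := by
  obtain ⟨hf1, hf2⟩ := hf
  obtain ⟨hg1, hg2⟩ := hg
  refine ⟨hf1.sub hg1, ?_⟩
  have := MemLp.toLp_sub hf1 hg1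
  have h' : (hf1.sub hg1).toLp (fun x => f x - g x) = hf1.toLp f - hg1.toLp g := this
  rw [h']
  exact Submodule.sub_mem _ hf2 hg2

lemma inC_orth {f : Tor → ℂ} (hf : InC h2 h3 f) {w : Lp ℂ 2 μ}
    (hw : w ∈ (Hc (UU h2) (UU h3))ᗮ) : ∫ x, f x * conj (w x) ∂μ = 0 := by
  obtain ⟨hf1, hf2⟩ := hf
  have h := (Submodule.mem_orthogonal' _ _).1 hw _ hf2
  rw [L2.inner_def] at h
  rw [← h]
  refine integral_congr_ae ?_
  filter_upwards [MemLp.coeFn_toLp hf1] with x hx
  rw [hx, RCLike.inner_apply]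

/-- an element whose values are zero or those of the character, invariance of its support -/
lemma supp_inv {n : ℤ} {f : Lp ℂ 2 μ} (hfe : ∀ᵐ x ∂μ, f x = 0 ∨ f x = (fourier n x : ℂ))
    {j : ℕ} (hj : 1 ≤ j) (h : MeasurePreserving (T j) μ μ)
    (hU : UU h f = PP (UU h2) (UU h3) (ev μ (j * n)))
    (hp : InC h2 h3 (fun x => f x ^ j)) :
    (fun x => {x | f x ≠ 0}.indicator (fun _ => (1 : ℂ)) (T j x)) =ᵐ[μ]
      {x | f x ≠ 0}.indicator (fun _ => (1 : ℂ)) := by
  set A : Set Tor := {x | f x ≠ 0} with hA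
  have hAm : MeasurableSet A :=
    (measurableSet_eq_fun (Lp.stronglyMeasurable f).measurable measurable_const).compl
  have hw : ev μ (j * n) - PP (UU h2) (UU h3) (ev μ (j * n)) ∈ (Hc (UU h2) (UU h3))ᗮ :=
    Submodule.sub_starProjection_mem_orthogonal _
  have h0 := inC_orth hp hw
  rw [← hU] at h0
  have hfT := h.quasiMeasurePreserving.ae hfe
  have hfour : ∀ x : Tor, (fourier n (T j x) : ℂ) = fourier (j * n) x := by
    intro x
    have : T j x = j • x := rfl
    rw [this, fourier_apply, fourier_apply, mul_comm (j : ℤ) n, mul_smul, natCast_zsmul]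
  have hpow : ∀ x : Tor, (fourier n x : ℂ) ^ j = fourier (j * n) x := by
    intro x
    rw [fourier_apply, fourier_apply, mul_smul, natCast_zsmul, AddCircle.toCircle_nsmul,
      Circle.coe_pow]
  have hone : ∀ x : Tor, (fourier (j * n) x : ℂ) * conj (fourier (j * n) x : ℂ) = 1 := by
    intro x
    rw [Complex.mul_conj, Complex.normSq_eq_norm_sq, Helper91.TTT.norm_fourier_apply]
    simp
  have hint : ∫ x, f x ^ j * conj ((ev μ (j * n) - UU h f : Lp ℂ 2 μ) x) ∂μ
      = ((μ.real (A \ T j ⁻¹' A) : ℝ) : ℂ) := by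
    have hm : MeasurableSet (A \ T j ⁻¹' A) := hAm.diff (h.measurable hAm)
    rw [← integral_indicator_one hm, ← integral_complex_ofReal]
    refine integral_congr_ae ?_
    filter_upwards [hfe, hfT, UU_coe h f, St.ev_coe (μ := μ) (j * n),
      Lp.coeFn_sub (ev μ (j * n)) (UU h f)] with x h1 h2' h3' h4 h5
    rw [h5, Pi.sub_apply, h4, h3']
    by_cases hxA : x ∈ A
    · have hx1 : f x = (fourier n x : ℂ) := h1.resolve_left hxA
      by_cases hxT : T j x ∈ A
      · have hx2 : f (T j x) = (fourier n (T j x) : ℂ) := h2'.resolve_left hxT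
        rw [hx2, hfour, sub_self, map_zero, mul_zero,
          Set.indicator_of_notMem (fun hh => hh.2 hxT), Complex.ofReal_zero]
      · have hx2 : f (T j x) = 0 := by
          by_contra hc
          exact hxT hc
        have hmem : x ∈ A \ T j ⁻¹' A := ⟨hxA, hxT⟩
        rw [hx2, sub_zero, hx1, hpow, hone, Set.indicator_of_mem hmem]
        simp
    · have hx1 : f x = 0 := by
        by_contra hc
        exact hxA hc
      rw [hx1, zero_pow (by omega), zero_mul, Set.indicator_of_notMem (fun hh => hxA hh.1),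
        Complex.ofReal_zero]
  rw [hint] at h0
  have hz : μ (A \ T j ⁻¹' A) = 0 := by
    have : μ.real (A \ T j ⁻¹' A) = 0 := by exact_mod_cast h0
    exact (measureReal_eq_zero_iff (measure_ne_top _ _)).1 this
  have hle : A ≤ᵐ[μ] T j ⁻¹' A := by
    rw [ae_le_set]; exact hz
  have heq : A =ᵐ[μ] T j ⁻¹' A :=
    ae_eq_of_ae_subset_of_measure_ge hle (by rw [h.measure_preimage hAm.nullMeasurableSet])
      hAm.nullMeasurableSet (measure_ne_top _ _)
  filter_upwards [heq.mem_iff] with x hx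
  by_cases hxA : x ∈ A
  · have hxT : T j x ∈ A := hx.1 hxA
    rw [Set.indicator_of_mem hxT, Set.indicator_of_mem hxA]
  · have hxT : T j x ∉ A := fun hh => hxA (hx.2 hh)
    rw [Set.indicator_of_notMem hxT, Set.indicator_of_notMem hxA]

end

/-- FX-19 -/
theorem upgrade {μ : Measure Tor} [IsProbabilityMeasure μ] (h2 : MeasurePreserving (T 2) μ μ)
    (h3 : MeasurePreserving (T 3) μ μ) (hE : Erg (ft μ)) (n : ℤ)
    (hn : PP (UU h2) (UU h3) (ev μ n) ≠ 0)
    (hc : MM μ (-n) (PP (UU h2) (UU h3) (ev μ n)) ∈ Hc (UU h2) (UU h3)) :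
    ev μ n ∈ Hc (UU h2) (UU h3) := by
  have hUV := St.commute_UU h2 h3
  set f := PP (UU h2) (UU h3) (ev μ n) with hf
  have hfm : f ∈ Hc (UU h2) (UU h3) := Submodule.starProjection_apply_mem _ _
  have hw : ev μ n - f ∈ (Hc (UU h2) (UU h3))ᗮ := Submodule.sub_starProjection_mem_orthogonal _
  have hev := St.ev_coe (μ := μ) n
  have hf1 : ∀ᵐ x ∂μ, ‖f x‖ ≤ 1 := by
    refine PP_bdd h2 h3 ?_
    filter_upwards [hev] with x hx
    rw [hx, Helper91.TTT.norm_fourier_apply]
  have hsub := Lp.coeFn_sub (ev μ n) f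
  -- membership in the compact part
  have c1 : InC h2 h3 (f : Tor → ℂ) := inC_coe hfm
  have c2 : InC h2 h3 (fun x => conj (f x)) := St.inC_conj h2 h3 c1
  have c3 : InC h2 h3 (fun x => (fourier (-n) x : ℂ) * f x) := inC_congr (inC_coe hc) (MM_coe _ _)
  have c4 : InC h2 h3 (fun x => f x * conj (f x)) := St.inC_mul h2 h3 hE c1 ⟨1, hf1⟩ c2
  have c5 : InC h2 h3 (fun x => f x * conj ((ev μ n - f : Lp ℂ 2 μ) x)) := by
    refine inC_congr (inC_sub c3 c4) ?_
    filter_upwards [hsub, hev] with x hx1 hx2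
    rw [hx1, Pi.sub_apply, hx2, map_sub, fourier_neg]
    ring
  have hb5 : ∀ᵐ x ∂μ, ‖f x * conj ((ev μ n - f : Lp ℂ 2 μ) x)‖ ≤ 2 := by
    filter_upwards [hsub, hev, hf1] with x hx1 hx2 hx3
    rw [hx1, Pi.sub_apply, hx2, norm_mul, RCLike.norm_conj]
    have h4 : ‖(fourier n x : ℂ) - f x‖ ≤ 2 := by
      refine (norm_sub_le _ _).trans ?_
      rw [Helper91.TTT.norm_fourier_apply]
      linarith
    have := mul_le_mul hx3 h4 (norm_nonneg _) zero_le_one
    linarith
  have c6 : InC h2 h3 (fun x => conj (f x * conj ((ev μ n - f : Lp ℂ 2 μ) x))) :=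
    St.inC_conj h2 h3 c5
  have hb6 : ∀ᵐ x ∂μ, ‖conj (f x * conj ((ev μ n - f : Lp ℂ 2 μ) x))‖ ≤ 2 := by
    filter_upwards [hb5] with x hx
    rwa [RCLike.norm_conj]
  have c7 := St.inC_mul h2 h3 hE c6 ⟨2, hb6⟩ c1
  have h0 := inC_orth c7 hw
  have hk : ∀ᵐ x ∂μ, f x * conj ((ev μ n - f : Lp ℂ 2 μ) x) = 0 := by
    obtain ⟨hL, _⟩ := c5
    have hsq : Integrable
        (fun x => ‖f x * conj ((ev μ n - f : Lp ℂ 2 μ) x)‖ ^ 2) μ := by
      have := hL.integrable_norm_pow (by norm_num)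
      simpa using this
    have h1 : ∫ x, ‖f x * conj ((ev μ n - f : Lp ℂ 2 μ) x)‖ ^ 2 ∂μ = 0 := by
      have h2' : ((∫ x, ‖f x * conj ((ev μ n - f : Lp ℂ 2 μ) x)‖ ^ 2 ∂μ : ℝ) : ℂ) = 0 := by
        rw [← integral_complex_ofReal, ← h0]
        refine integral_congr_ae (Eventually.of_forall (fun x => ?_))
        show (((‖f x * conj ((ev μ n - f : Lp ℂ 2 μ) x)‖ ^ 2 : ℝ)) : ℂ)
          = conj (f x * conj ((ev μ n - f : Lp ℂ 2 μ) x)) * f x
            * conj ((ev μ n - f : Lp ℂ 2 μ) x)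
        rw [mul_assoc, mul_comm (conj _) (f x * _), Complex.mul_conj, Complex.normSq_eq_norm_sq]
      exact_mod_cast h2'
    have h3' := (integral_eq_zero_iff_of_nonneg (fun x => by positivity) hsq).1 h1
    filter_upwards [h3'] with x hx
    have : ‖f x * conj ((ev μ n - f : Lp ℂ 2 μ) x)‖ = 0 := by
      simpa using hx
    exact norm_eq_zero.1 this
  have hfe : ∀ᵐ x ∂μ, f x = 0 ∨ f x = (fourier n x : ℂ) := by
    filter_upwards [hk, hsub, hev] with x h1 h2' h3'
    rcases mul_eq_zero.1 h1 with h | h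
    · exact Or.inl h
    · right
      rw [map_eq_zero, h2', Pi.sub_apply, h3', sub_eq_zero] at h
      exact h.symm
  -- the images
  have hU2 : UU h2 f = PP (UU h2) (UU h3) (ev μ ((2 : ℕ) * n)) := by
    have h1 := St.PP_act hUV (1, 0) (ev μ n)
    rw [St.act_ev] at h1
    have h4 : sc (1, 0) * n = ((2 : ℕ) : ℤ) * n := by simp [sc]
    rw [h4] at h1
    rw [h1, hf]
    simp [act]
  have hU3 : UU h3 f = PP (UU h2) (UU h3) (ev μ ((3 : ℕ) * n)) := by
    have h1 := St.PP_act hUV (0, 1) (ev μ n)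
    rw [St.act_ev] at h1
    have h4 : sc (0, 1) * n = ((3 : ℕ) : ℤ) * n := by simp [sc]
    rw [h4] at h1
    rw [h1, hf]
    simp [act]
  have c8 : InC h2 h3 (fun x => f x ^ 2) := by
    have := St.inC_mul h2 h3 hE c1 ⟨1, hf1⟩ c1
    refine inC_congr this (Eventually.of_forall (fun x => ?_))
    show f x * f x = f x ^ 2
    ring
  have c9 : InC h2 h3 (fun x => f x ^ 3) := by
    have := St.inC_mul h2 h3 hE c1 ⟨1, hf1⟩ c8
    refine inC_congr this (Eventually.of_forall (fun x => ?_))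
    show f x * f x ^ 2 = f x ^ 3
    ring
  have i2 := supp_inv hfe (by norm_num) h2 hU2 c8
  have i3 := supp_inv hfe (by norm_num) h3 hU3 c9
  set A : Set Tor := {x | f x ≠ 0} with hA
  have hAm : MeasurableSet A :=
    (measurableSet_eq_fun (Lp.stronglyMeasurable f).measurable measurable_const).compl
  have hgL : MemLp (A.indicator (fun _ => (1 : ℂ))) 2 μ :=
    memLp_indicator_const 2 hAm 1 (Or.inr (measure_ne_top _ _))
  set v : Lp ℂ 2 μ := hgL.toLp _ with hv
  have hvc : (v : Tor → ℂ) =ᵐ[μ] A.indicator (fun _ => (1 : ℂ)) := MemLp.coeFn_toLp hgL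
  have hinv : ∀ {j : ℕ} (h : MeasurePreserving (T j) μ μ),
      ((fun x => A.indicator (fun _ => (1 : ℂ)) (T j x)) =ᵐ[μ]
        A.indicator (fun _ => (1 : ℂ))) → UU h v = v := by
    intro j h hi
    refine Lp.ext ?_
    have hvT := h.quasiMeasurePreserving.ae hvc
    filter_upwards [UU_coe h v, hvc, hi, hvT] with x h1 h2' h3' h4
    rw [h1, h4, h2', ← h3']
  obtain ⟨c, hcv⟩ := St.const_of_inv h2 h3 hE v (hinv h2 i2) (hinv h3 i3)
  have hcA : ∀ᵐ x ∂μ, A.indicator (fun _ => (1 : ℂ)) x = c := by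
    filter_upwards [hvc, Lp.coeFn_smul c (ev μ 0), St.ev_coe (μ := μ) 0] with x h1 h2' h3'
    rw [← h1, hcv, h2', Pi.smul_apply, h3', fourier_zero, smul_eq_mul, mul_one]
  have hA0 : μ A ≠ 0 := by
    intro hA0
    apply hn
    have : (f : Tor → ℂ) =ᵐ[μ] 0 := by
      have := measure_eq_zero_iff_ae_notMem.1 hA0
      filter_upwards [this] with x hx
      by_contra hcx
      exact hx hcx
    exact (Lp.eq_zero_iff_ae_eq_zero).2 this
  have hc1 : c = 1 := by
    by_contra hcne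
    apply hA0
    rw [measure_eq_zero_iff_ae_notMem]
    filter_upwards [hcA] with x hx hxA
    rw [Set.indicator_of_mem hxA] at hx
    exact hcne hx.symm
  have hfin : f = ev μ n := by
    refine Lp.ext ?_
    filter_upwards [hfe, hcA, hev] with x h1 h2' h3'
    rw [h3']
    refine h1.resolve_left (fun h => ?_)
    have : x ∉ A := fun hx => hx h
    rw [Set.indicator_of_notMem this, hc1] at h2'
    exact zero_ne_one h2'
  rw [← hfin]
  exact hfm

end Helper58.FXP.H11
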