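import Mathlib
import Pool.Agent.Helper58.FX.Defs
import Pool.Agent.Helper58.FX.Re.R5

set_option autoImplicit false
open MeasureTheory Filter Topology Helper17.LevelSets
open scoped InnerProductSpace ComplexConjugate ENNReal

/-! The isolation property fails for every exotic function. -/

namespace Helper58.FX
open Helper58.FX.St

variable {μ : Measure Tor}

lemma ev_zero_mem [IsProbabilityMeasure μ] (h2 : MeasurePreserving (T 2) μ μ)
    (h3 : MeasurePreserving (T 3) μ μ) : ev μ 0 ∈ Hc (UU h2) (UU h3) := by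
  refine Submodule.le_topologicalClosure _ (Submodule.subset_span ⟨1, 1, ?_⟩)
  have h5 := act_ev h2 h3 (1, 0) 0
  have h6 := act_ev h2 h3 (0, 1) 0
  rw [mul_zero] at h5 h6
  rw [mem_Eg, one_smul]
  refine ⟨?_, ?_⟩
  · simpa [act] using h5
  · simpa [act] using h6

lemma UU_one [IsProbabilityMeasure μ] (h2 : MeasurePreserving (T 2) μ μ)
    (h3 : MeasurePreserving (T 3) μ μ) : UU h2 (ev μ 0) = ev μ 0 ∧ UU h3 (ev μ 0) = ev μ 0 := by
  have h5 := act_ev h2 h3 (1, 0) 0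
  have h6 := act_ev h2 h3 (0, 1) 0
  rw [mul_zero] at h5 h6
  exact ⟨by simpa [act] using h5, by simpa [act] using h6⟩

lemma PP_ne_zero [IsProbabilityMeasure μ] (h2 : MeasurePreserving (T 2) μ μ)
    (h3 : MeasurePreserving (T 3) μ μ) {n : ℤ} (hn : ft μ n ≠ 0) :
    PP (UU h2) (UU h3) (ev μ n) ≠ 0 := by
  intro h
  apply hn
  have h5 := Submodule.starProjection_inner_eq_zero (K := Hc (UU h2) (UU h3)) (ev μ n) (ev μ 0)
    (ev_zero_mem h2 h3)
  have h6 : (Hc (UU h2) (UU h3)).starProjection (ev μ n) = 0 := h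
  rw [h6, sub_zero, inner_ev] at h5
  have h7 : ft μ n = conj (ft μ (0 - n)) := by
    rw [← inner_ev, inner_conj_symm, inner_ev, sub_zero]
  rw [h7, h5, map_zero]

/-- **No exotic function is isolated together with the exotic limits of its dilates.** -/
theorem not_iso {q : ℤ → ℂ} (hq : ExLike q) : ¬ Iso q := by
  intro hI
  obtain ⟨⟨ν, hp, hft, h2, h3, hna⟩, hE, n0, hn0, hqn0⟩ := hq
  have hqe : q = ft ν := funext fun n => (hft n).symm
  subst hqe
  -- isolation at the point itself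
  have hex : ExLike (ft ν) := ⟨⟨ν, hp, fun _ => rfl, h2, h3, hna⟩, hE, n0, hn0, hqn0⟩
  have hmem : ft ν ∈ closure (Set.range fun k : ℕ => dil (ft ν) ((k : ℤ) + 1)) := by
    refine subset_closure ⟨0, ?_⟩
    funext n
    simp [dil]
  obtain ⟨W, hWo, hνW, hWiso⟩ := hI _ hmem hex
  have key : ∀ m : ℕ, 1 ≤ m → ev ν m ∉ Hc (UU h2) (UU h3) := by
    intro m hm hc
    exact hqn0 (chain h2 h3 hna hm hc hWo hνW hWiso n0 hn0)
  have hUV := commute_UU h2 h3
  by_cases hNA : ∀ m : ℕ, 1 ≤ m → ∀ ε : ℝ, 0 < ε → ∃ η : ℝ, 0 < η ∧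
      Up {s | ‖ft ν (m * (sc s - 1)) - 1‖ < η} ε
  · -- a positive index
    obtain ⟨m, hm, hm0⟩ : ∃ m : ℕ, 1 ≤ m ∧ ft ν m ≠ 0 := by
      refine ⟨n0.natAbs, Nat.one_le_iff_ne_zero.mpr (Int.natAbs_ne_zero.mpr hn0), ?_⟩
      rcases Int.natAbs_eq n0 with h | h
      · rw [← h]; exact hqn0
      · intro h0
        apply hqn0
        rw [h]
        have h5 : ft ν (-(n0.natAbs : ℤ)) = conj (ft ν (n0.natAbs : ℤ)) := by
          rw [← sub_zero (n0.natAbs : ℤ), ← inner_ev, inner_conj_symm, inner_ev]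
          congr 1
          ring
        rw [h5, h0, map_zero]
    have hmz : (m : ℤ) ≠ 0 := by omega
    have hone : ∀ k : ℤ, MM ν k (ev ν 0) = ev ν k := by
      intro k; rw [MM_ev, add_zero]
    have hmain := main_ineq hUV (MM ν) MM_zero MM_add (act_MM h2 h3) (ev ν 0) (norm_ev 0)
      (UU_one h2 h3).1 (UU_one h2 h3).2 (fd_Eg h2 h3 hE)
      (fun k => by rw [hone, hone]; exact norm_PP_neg h2 h3 k) (m : ℤ)
      (fun r hr ε hε => by
        obtain ⟨C, hC, hU⟩ := classes h2 h3 hE hI hNA (m : ℤ) hmz r hr ε hε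
        refine ⟨C, hC, ?_⟩
        simp only [hone, inner_ev, sub_zero]
        exact hU)
    rw [hone] at hmain
    exact key m hm (upgrade h2 h3 hE (m : ℤ) (PP_ne_zero h2 h3 hm0) hmain)
  · push Not at hNA
    obtain ⟨m, hm, ε, hε, hU⟩ := hNA
    refine key m hm (compact_of_return hUV (norm_ev (m : ℤ)) ⟨ε, hε, fun η hη => ?_⟩)
    have h5 := hU η hη
    have h6 : {s : ℕ × ℕ | ‖⟪ev ν (m : ℤ), act (UU h2) (UU h3) s (ev ν (m : ℤ))⟫_ℂ - 1‖ < η} =
        {s | ‖ft ν (m * (sc s - 1)) - 1‖ < η} := by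
      ext s
      rw [Set.mem_ofPred_eq, Set.mem_ofPred_eq, act_ev, inner_ev,
        show sc s * (m : ℤ) - m = m * (sc s - 1) by ring]
    rw [h6]
    exact h5

end Helper58.FX
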