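import Mathlib
import Pool.Agent.Helper58.FX.P.Core
import Pool.Agent.Helper58.FX.Re.R6

set_option autoImplicit false
open MeasureTheory Filter Topology Helper17.FU Helper17.FUGroup Helper91.TTT
open scoped InnerProductSpace ComplexConjugate ENNReal ComplexOrder

/-! Accumulation of exotic traces. -/

namespace Helper58.FX
open Helper58.FX.St

variable {s2 s3 t : Equiv.Perm ℚ}

/-- exotic traces -/
def Exo (φ : GG s2 s3 t → ℂ) : Prop :=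
  φ ∈ Set.extremePoints ℝ (TR (GG s2 s3 t)) ∧
    φ ≠ Set.indicator ({1} : Set (GG s2 s3 t)) (fun _ => (1 : ℂ)) ∧
    ¬ FiniteDimensional ℂ (Submodule.span ℂ {F : GG s2 s3 t → ℂ | ∃ n : GG s2 s3 t,
      IsTr n ∧ F = fun x => φ (n * x)})

lemma pow_pull {τ : GG s2 s3 t} {θ : ℕ → (GG s2 s3 t →* GG s2 s3 t)}
    (hθτ : ∀ q : ℕ, 1 ≤ q → θ q τ = τ ^ (q : ℤ)) {q : ℕ} (hq : 1 ≤ q) (n : ℤ) :
    θ q (τ ^ n) = τ ^ ((q : ℤ) * n) := by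
  rw [map_zpow, hθτ q hq, ← zpow_mul]

/-- an exotic trace is determined by its values on the powers of `τ` -/
lemma exo_ext (h2 : ∀ x : ℚ, s2 x = 2 * x) (h3 : ∀ x : ℚ, s3 x = 3 * x)
    (ht : ∀ x : ℚ, t x = x + 1) {τ : GG s2 s3 t} (hτ : (τ : Equiv.Perm ℚ) = t)
    {φ ψ : GG s2 s3 t → ℂ} (hφ : Exo φ) (hψ : Exo ψ) (h : ∀ n : ℤ, φ (τ ^ n) = ψ (τ ^ n)) :
    φ = ψ := by
  funext g
  by_cases hg : IsTr g
  · obtain ⟨m, σ, hσ, -⟩ := trans_conj' h2 h3 ht hτ g hg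
    rw [hσ, hφ.1.1.2.1, hψ.1.1.2.1, h]
  · rw [exotic_off h2 h3 ht hφ.1 hφ.2.2 g hg, exotic_off h2 h3 ht hψ.1 hψ.2.2 g hg]

/-- **Accumulation.** -/
theorem accum (h2 : ∀ x : ℚ, s2 x = 2 * x) (h3 : ∀ x : ℚ, s3 x = 3 * x)
    (ht : ∀ x : ℚ, t x = x + 1) {τ : GG s2 s3 t} (hτ : (τ : Equiv.Perm ℚ) = t)
    {θ : ℕ → (GG s2 s3 t →* GG s2 s3 t)} (hθτ : ∀ q : ℕ, 1 ≤ q → θ q τ = τ ^ (q : ℤ))
    (hθtr : ∀ q : ℕ, 1 ≤ q → ∀ g : GG s2 s3 t, ¬ IsTr g → ¬ IsTr (θ q g))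
    {φ : GG s2 s3 t → ℂ} (hφ : Exo φ) :
    ∃ ψ : GG s2 s3 t → ℂ, Exo ψ ∧ ∃ m : ℕ → ℕ, (∀ i, 1 ≤ m i) ∧
      Function.Injective (fun i => fun g => φ (θ (m i) g)) ∧
      ∀ g, Tendsto (fun i => φ (θ (m i) g)) atTop (𝓝 (ψ g)) := by
  set q : ℤ → ℂ := fun n => φ (τ ^ n) with hq
  have hqE : ExLike q := exlike_of_exotic h2 h3 ht hτ hφ.1 hφ.2.1 hφ.2.2
  have hni := not_iso hqE
  unfold Iso at hni
  push Not at hni
  obtain ⟨p, hpc, hpE, hpW⟩ := hni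
  obtain ⟨u, hu⟩ := (𝓝 p).exists_antitone_basis
  have hch : ∀ i : ℕ, ∃ k : ℕ, dil q ((k : ℤ) + 1) ∈ interior (u i) ∧
      dil q ((k : ℤ) + 1) ≠ p := by
    intro i
    exact hpW _ isOpen_interior (mem_interior_iff_mem_nhds.mpr (hu.1.mem_of_mem trivial))
  choose k hk1 hk2 using hch
  have hklim : Tendsto (fun i => dil q ((k i : ℤ) + 1)) atTop (𝓝 p) := by
    refine hu.1.tendsto_right_iff.mpr (fun i _ => ?_)
    filter_upwards [eventually_ge_atTop i] with j hj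
    exact hu.2 hj (interior_subset (hk1 j))
  set x : ℕ → GG s2 s3 t → ℂ := fun i g => φ (θ (k i + 1) g) with hx
  have hxe : ∀ i, Exo (x i) := by
    intro i
    exact pullback h2 h3 ht hτ hφ.1 hφ.2.1 hφ.2.2 (θ (k i + 1)) (q := ((k i + 1 : ℕ) : ℤ))
      (by omega) (hθτ _ (by omega))
  have hxτ : ∀ (i : ℕ) (n : ℤ), x i (τ ^ n) = dil q ((k i : ℤ) + 1) n := by
    intro i n
    show φ (θ (k i + 1) (τ ^ n)) = φ (τ ^ (((k i : ℤ) + 1) * n))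
    rw [pow_pull hθτ (by omega)]
    push_cast
    rfl
  obtain ⟨ψ, hψ1, hψ2, hψ3, hψlim, hψp⟩ := trace_limit h2 h3 ht hτ x (fun i => (hxe i).1.1)
    (fun i g hg => exotic_off h2 h3 ht hφ.1 hφ.2.2 _ (hθtr _ (by omega) g hg)) hpE
    (fun n => by
      simp only [hxτ]
      exact (tendsto_pi_nhds.mp hklim) n)
  have hxne : ∀ i, x i ≠ ψ := by
    intro i h
    apply hk2 i
    funext n
    rw [← hxτ, h, hψp]
  obtain ⟨σ, hσ, hinj⟩ := exists_injective_subseq x (tendsto_pi_nhds.mpr hψlim) hxne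
  exact ⟨ψ, ⟨hψ1, hψ2, hψ3⟩, fun i => k (σ i) + 1, fun i => Nat.le_add_left 1 _, hinj,
    fun g => (hψlim g).comp hσ.tendsto_atTop⟩

/-- exotic limits of sequences of distinct elements -/
def Der (A : Set (GG s2 s3 t → ℂ)) : Set (GG s2 s3 t → ℂ) :=
  {ψ | Exo ψ ∧ ∃ x : ℕ → GG s2 s3 t → ℂ, (∀ i, x i ∈ A) ∧ Function.Injective x ∧
    ∀ g, Tendsto (fun i => x i g) atTop (𝓝 (ψ g))}

lemma der_exo {A : Set (GG s2 s3 t → ℂ)} (hA : ∀ φ ∈ A, Exo φ) (k : ℕ) :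
    ∀ φ ∈ (Der^[k] A), Exo φ := by
  cases k with
  | zero => exact hA
  | succ k =>
    intro φ h
    rw [Function.iterate_succ_apply'] at h
    exact h.1

/-- the derived sets are stable under pullbacks -/
lemma der_pull (h2 : ∀ x : ℚ, s2 x = 2 * x) (h3 : ∀ x : ℚ, s3 x = 3 * x)
    (ht : ∀ x : ℚ, t x = x + 1) {τ : GG s2 s3 t} (hτ : (τ : Equiv.Perm ℚ) = t)
    {θ : ℕ → (GG s2 s3 t →* GG s2 s3 t)} (hθτ : ∀ q : ℕ, 1 ≤ q → θ q τ = τ ^ (q : ℤ))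
    {A : Set (GG s2 s3 t → ℂ)} (hA : ∀ φ ∈ A, Exo φ)
    (hAp : ∀ φ ∈ A, ∀ q : ℕ, 1 ≤ q → (fun g => φ (θ q g)) ∈ A)
    (k : ℕ) : ∀ φ ∈ (Der^[k] A), ∀ q : ℕ, 1 ≤ q → (fun g => φ (θ q g)) ∈ (Der^[k] A) := by
  have hpull : ∀ φ : GG s2 s3 t → ℂ, Exo φ → ∀ q : ℕ, 1 ≤ q → Exo (fun g => φ (θ q g)) := by
    rintro φ ⟨a, b, c⟩ q hq
    exact pullback h2 h3 ht hτ a b c (θ q) (q := (q : ℤ)) (by omega) (hθτ q hq)
  induction k with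
  | zero => exact hAp
  | succ k ih =>
    intro φ h q hq
    rw [Function.iterate_succ_apply'] at h ⊢
    obtain ⟨he, x, hx, hinj, hlim⟩ := h
    refine ⟨hpull φ he q hq, ?_⟩
    obtain ⟨σ, hσ, hσi⟩ := exists_injective_subseq' x (fun φ : GG s2 s3 t → ℂ =>
      fun g => φ (θ q g)) hinj (by
        intro y
        have hfin := finite_to_one (q := fun n => y (τ ^ n)) hq
        refine Set.Finite.of_finite_image (f := fun z : GG s2 s3 t → ℂ => fun n : ℤ => z (τ ^ n))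
          (hfin.subset ?_) ?_
        · rintro _ ⟨z, ⟨⟨i, rfl⟩, hz⟩, rfl⟩
          have hei := der_exo hA k _ (hx i)
          refine ⟨exlike_of_exotic h2 h3 ht hτ hei.1 hei.2.1 hei.2.2, ?_⟩
          funext n
          have h5 := congrFun hz (τ ^ n)
          simp only [pow_pull hθτ hq] at h5
          exact h5
        · rintro z ⟨⟨i, rfl⟩, -⟩ z' ⟨⟨j, rfl⟩, -⟩ hzz
          exact exo_ext h2 h3 ht hτ (der_exo hA k _ (hx i)) (der_exo hA k _ (hx j))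
            (fun n => congrFun hzz n))
    exact ⟨fun i => fun g => x (σ i) (θ q g), fun i => ih _ (hx (σ i)) q hq, hσi,
      fun g => (hlim (θ q g)).comp hσ.tendsto_atTop⟩

/-- **All derived sets of finite order are nonempty.** -/
theorem der_nonempty (h2 : ∀ x : ℚ, s2 x = 2 * x) (h3 : ∀ x : ℚ, s3 x = 3 * x)
    (ht : ∀ x : ℚ, t x = x + 1) {τ : GG s2 s3 t} (hτ : (τ : Equiv.Perm ℚ) = t)
    {θ : ℕ → (GG s2 s3 t →* GG s2 s3 t)} (hθτ : ∀ q : ℕ, 1 ≤ q → θ q τ = τ ^ (q : ℤ))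
    (hθtr : ∀ q : ℕ, 1 ≤ q → ∀ g : GG s2 s3 t, ¬ IsTr g → ¬ IsTr (θ q g))
    {A : Set (GG s2 s3 t → ℂ)} (hA : ∀ φ ∈ A, Exo φ)
    (hAp : ∀ φ ∈ A, ∀ q : ℕ, 1 ≤ q → (fun g => φ (θ q g)) ∈ A)
    (hne : A.Nonempty) (k : ℕ) : (Der^[k] A).Nonempty := by
  induction k with
  | zero => exact hne
  | succ k ih =>
    obtain ⟨φ, hφ⟩ := ih
    obtain ⟨ψ, hψ, m, hm, hinj, hlim⟩ := accum h2 h3 ht hτ hθτ hθtr (der_exo hA k φ hφ)
    rw [Function.iterate_succ_apply']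
    exact ⟨ψ, hψ, fun i => fun g => φ (θ (m i) g),
      fun i => der_pull h2 h3 ht hτ hθτ hA hAp k φ hφ (m i) (hm i), hinj, hlim⟩

end Helper58.FX
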