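import Mathlib
import Pool.Agent.Helper58.FX.Defs2
import Pool.Agent.Helper58.FX.Re.R5
import Pool.Agent.Helper58.FX.Re.R7

set_option autoImplicit false
open MeasureTheory Filter Topology Helper17.LevelSets Helper17.FU Helper17.FUGroup Helper91.TTT
open scoped InnerProductSpace ComplexConjugate ENNReal ComplexOrder

/-! CV-8 (project FX, MP_81910f_an). -/

namespace Helper58.FXP.H83
open Helper58.FX

lemma norm_ft_le (ν : Measure Helper58.FX.Tor) [IsProbabilityMeasure ν] (n : ℤ) :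
    ‖ft ν n‖ ≤ 1 := by
  unfold ft
  calc ‖∫ x, (fourier n x : ℂ) ∂ν‖ ≤ ∫ x, ‖(fourier n x : ℂ)‖ ∂ν := norm_integral_le_integral_norm _
    _ = ∫ _x, (1 : ℝ) ∂ν := by
        refine integral_congr_ae (Filter.Eventually.of_forall (fun x => ?_))
        exact Helper91.TTT.norm_fourier_apply _ _
    _ = 1 := by simp

/-- CV-8: sequences tending to the trivial function -/
theorem eventually_one (hno : ¬ ∃ q : ℤ → ℂ, ExLike q) (f : ℕ → ℤ → ℂ) (hf : ∀ i, IPD (f i))
    (hE : ∀ i, Erg (f i)) (hlim : ∀ n, Tendsto (fun i => f i n) atTop (𝓝 1)) :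
    ∀ᶠ i in atTop, f i = fun _ => 1 := by
  by_contra hcon
  rw [Filter.not_eventually] at hcon
  -- the subsequence
  have hre : Tendsto (fun i => 1 - (f i 1).re) atTop (𝓝 0) := by
    have h1 : Tendsto (fun i => (f i 1).re) atTop (𝓝 (1 : ℂ).re) :=
      (Complex.continuous_re.tendsto _).comp (hlim 1)
    have h2 := (tendsto_const_nhds (x := (1 : ℝ))).sub h1
    simpa using h2
  have hex : ∀ j : ℕ, ∃ᶠ k in atTop, (f k ≠ fun _ => 1) ∧ 1 - (f k 1).re ≤ (1 / 2 : ℝ) ^ j := by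
    intro j
    have hpos : (0 : ℝ) < (1 / 2 : ℝ) ^ j := by positivity
    exact hcon.and_eventually (hre.eventually (ge_mem_nhds hpos))
  obtain ⟨φ, -, hφ⟩ := Filter.extraction_forall_of_frequently hex
  set g : ℕ → ℤ → ℂ := fun j => f (φ j) with hg
  have hgI : ∀ j, IPD (g j) := fun j => hf _
  have hgE : ∀ j, Erg (g j) := fun j => hE _
  have hgne : ∀ j, g j ≠ fun _ => 1 := fun j => (hφ j).1
  have hgb : ∀ j, 1 - (g j 1).re ≤ (1 / 2 : ℝ) ^ j := fun j => (hφ j).2
  -- measures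
  have hmeas : ∀ j, ∃ ν : Measure Helper58.FX.Tor, IsProbabilityMeasure ν ∧
      (∀ n, ft ν n = g j n) ∧ MeasurePreserving (T 2) ν ν ∧ MeasurePreserving (T 3) ν ν :=
    fun j => St.exists_measure (hgI j).pd (hgI j).one (hgI j).two (hgI j).three
  have hnorm : ∀ j n, ‖g j n‖ ≤ 1 := by
    intro j n
    obtain ⟨ν, hν, hft, -, -⟩ := hmeas j
    rw [← hft n]
    exact norm_ft_le ν n
  have hnn : ∀ j n, 0 ≤ 1 - (g j n).re := by
    intro j n
    have := (Complex.re_le_norm (g j n)).trans (hnorm j n)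
    linarith
  have hsum : Summable (fun i => 1 - (g i 1).re) :=
    Summable.of_nonneg_of_le (fun j => hnn j 1) hgb
      (summable_geometric_of_lt_one (by norm_num) (by norm_num))
  obtain ⟨F, hF, hFn⟩ := St.exists_exp g hgI hsum
  obtain ⟨ν, hν, hft, hm2, hm3⟩ := St.exists_measure hF.pd hF.one hF.two hF.three
  -- the Wiener mean of each `g j`
  have hw : ∀ j : ℕ, ∀ᶠ L : ℕ in atTop,
      ∑ n ∈ Finset.range L, ‖g j n‖ ^ 2 ≤ (2 * (1 / 2 : ℝ) ^ j) * L := by
    intro j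
    obtain ⟨μ, hμ, hftμ, -, -⟩ := hmeas j
    have hpos : (0 : ℝ) < (1 / 2 : ℝ) ^ j := by positivity
    have h1 : ∀ x, μ.real {x} ≤ (1 / 2 : ℝ) ^ j := fun x =>
      (St.atom_bound (hgI j) (hgE j) (hgne j) hftμ x).trans (hgb j)
    have h2 := St.wiener_le h1 hpos
    filter_upwards [h2] with L hL
    have h3 : ∑ n ∈ Finset.range L, ‖g j n‖ ^ 2 = ∑ n ∈ Finset.range L, ‖ft μ n‖ ^ 2 :=
      Finset.sum_congr rfl (fun n _ => by rw [hftμ])
    rw [h3, two_mul]
    exact hL
  -- pointwise bound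
  have hpt : ∀ (a k : ℕ) (n : ℤ),
      ‖F n‖ ^ 2 ≤ Real.exp (-(k : ℝ)) + ∑ i ∈ Finset.range k, 4 * ‖g (a + i) n‖ ^ 2 := by
    intro a k n
    obtain ⟨hs, hv⟩ := hFn n
    have hsn : 0 ≤ ∑ i ∈ Finset.range k, 4 * ‖g (a + i) n‖ ^ 2 :=
      Finset.sum_nonneg (fun i _ => by positivity)
    have hFv : ‖F n‖ ^ 2 = Real.exp (-(2 * ∑' i, (1 - (g i n).re))) := by
      rw [hv, Complex.norm_real, Real.norm_of_nonneg (Real.exp_pos _).le, ← Real.exp_nat_mul]
      congr 1
      push_cast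
      ring
    by_cases hc : ∀ i ∈ Finset.range k, ‖g (a + i) n‖ ≤ 1 / 2
    · have h1 : ∑ i ∈ Finset.range k, (1 - (g (a + i) n).re) ≤ ∑' i, (1 - (g i n).re) := by
        have h2 : ∑ i ∈ Finset.range k, (1 - (g (a + i) n).re) =
            ∑ i ∈ (Finset.range k).map (addLeftEmbedding a), (1 - (g i n).re) := by
          rw [Finset.sum_map]
          rfl
        rw [h2]
        exact hs.sum_le_tsum _ (fun i _ => hnn i n)
      have h2 : (k : ℝ) * (1 / 2) ≤ ∑ i ∈ Finset.range k, (1 - (g (a + i) n).re) := by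
        have h3 : ∑ i ∈ Finset.range k, (1 / 2 : ℝ) = (k : ℝ) * (1 / 2) := by
          rw [Finset.sum_const, Finset.card_range, nsmul_eq_mul]
        rw [← h3]
        refine Finset.sum_le_sum (fun i hi => ?_)
        have := (Complex.re_le_norm (g (a + i) n)).trans (hc i hi)
        linarith
      have h3 : ‖F n‖ ^ 2 ≤ Real.exp (-(k : ℝ)) := by
        rw [hFv]
        apply Real.exp_le_exp.mpr
        linarith
      linarith
    · push Not at hc
      obtain ⟨i, hi, hgt⟩ := hc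
      have h1 : (1 : ℝ) ≤ 4 * ‖g (a + i) n‖ ^ 2 := by nlinarith
      have h2 : 4 * ‖g (a + i) n‖ ^ 2 ≤ ∑ i ∈ Finset.range k, 4 * ‖g (a + i) n‖ ^ 2 :=
        Finset.single_le_sum (f := fun i => 4 * ‖g (a + i) n‖ ^ 2)
          (fun i _ => by positivity) hi
      have h3 : ‖F n‖ ^ 2 ≤ 1 := by
        rw [← hft n]
        have := norm_ft_le ν n
        have h0 := norm_nonneg (ft ν n)
        nlinarith
      have h4 := Real.exp_pos (-(k : ℝ))
      linarith
  -- the mean of `F`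
  have hmean : Tendsto (fun L : ℕ => (∑ n ∈ Finset.range L, ‖ft ν n‖ ^ 2) / (L : ℝ)) atTop
      (𝓝 0) := by
    rw [Metric.tendsto_atTop']
    intro ε hε
    obtain ⟨a, ha⟩ : ∃ a : ℕ, (1 / 2 : ℝ) ^ a < ε / 32 :=
      exists_pow_lt_of_lt_one (by positivity) (by norm_num)
    obtain ⟨k, hk⟩ : ∃ k : ℕ, Real.exp (-(k : ℝ)) < ε / 2 := by
      have h1 : Tendsto (fun k : ℕ => Real.exp (-(k : ℝ))) atTop (𝓝 0) :=
        Real.tendsto_exp_neg_atTop_nhds_zero.comp tendsto_natCast_atTop_atTop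
      exact (h1.eventually (gt_mem_nhds (by positivity))).exists
    have hall : ∀ᶠ L : ℕ in atTop, ∀ i ∈ Finset.range k,
        ∑ n ∈ Finset.range L, ‖g (a + i) n‖ ^ 2 ≤ (2 * (1 / 2 : ℝ) ^ (a + i)) * L := by
      rw [Filter.eventually_all_finset]
      intro i _
      exact hw (a + i)
    obtain ⟨N, hN⟩ := Filter.eventually_atTop.mp hall
    refine ⟨N, fun L hL => ?_⟩
    have hL0 : (0 : ℝ) < (L : ℝ) := by
      have : 0 < L := lt_of_le_of_lt (Nat.zero_le _) hL
      exact_mod_cast this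
    have hS := hN L hL.le
    have hgeo : ∑ i ∈ Finset.range k, (1 / 2 : ℝ) ^ i ≤ 2 := by
      have h1 := geom_sum_eq (x := (1 / 2 : ℝ)) (by norm_num) k
      rw [h1]
      have h2 : (0 : ℝ) < (1 / 2 : ℝ) ^ k := by positivity
      rw [div_le_iff_of_neg (by norm_num)]
      linarith
    have hbd : ∑ n ∈ Finset.range L, ‖ft ν n‖ ^ 2 ≤
        L * Real.exp (-(k : ℝ)) + 16 * (1 / 2 : ℝ) ^ a * L := by
      calc ∑ n ∈ Finset.range L, ‖ft ν n‖ ^ 2
          ≤ ∑ n ∈ Finset.range L,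
              (Real.exp (-(k : ℝ)) + ∑ i ∈ Finset.range k, 4 * ‖g (a + i) n‖ ^ 2) := by
            refine Finset.sum_le_sum (fun n _ => ?_)
            rw [hft]
            exact hpt a k n
        _ = L * Real.exp (-(k : ℝ)) +
              ∑ i ∈ Finset.range k, 4 * ∑ n ∈ Finset.range L, ‖g (a + i) n‖ ^ 2 := by
            rw [Finset.sum_add_distrib, Finset.sum_const, Finset.card_range, nsmul_eq_mul,
              Finset.sum_comm]
            simp only [Finset.mul_sum]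
        _ ≤ L * Real.exp (-(k : ℝ)) +
              ∑ i ∈ Finset.range k, 8 * (1 / 2 : ℝ) ^ a * L * (1 / 2 : ℝ) ^ i := by
            have : ∑ i ∈ Finset.range k, 4 * ∑ n ∈ Finset.range L, ‖g (a + i) n‖ ^ 2 ≤
                ∑ i ∈ Finset.range k, 8 * (1 / 2 : ℝ) ^ a * L * (1 / 2 : ℝ) ^ i := by
              refine Finset.sum_le_sum (fun i hi => ?_)
              have h1 := hS i hi
              have h2 : 8 * (1 / 2 : ℝ) ^ a * L * (1 / 2 : ℝ) ^ i =
                  4 * ((2 * (1 / 2 : ℝ) ^ (a + i)) * L) := by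
                rw [pow_add]; ring
              rw [h2]
              linarith
            linarith
        _ = L * Real.exp (-(k : ℝ)) +
              8 * (1 / 2 : ℝ) ^ a * L * ∑ i ∈ Finset.range k, (1 / 2 : ℝ) ^ i := by
            rw [Finset.mul_sum]
        _ ≤ L * Real.exp (-(k : ℝ)) + 16 * (1 / 2 : ℝ) ^ a * L := by
            have h1 : (0 : ℝ) ≤ 8 * (1 / 2 : ℝ) ^ a * L := by positivity
            have h2 := mul_le_mul_of_nonneg_left hgeo h1
            linarith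
    have hnn0 : 0 ≤ ∑ n ∈ Finset.range L, ‖ft ν n‖ ^ 2 :=
      Finset.sum_nonneg (fun _ _ => by positivity)
    rw [Real.dist_0_eq_abs, abs_of_nonneg (div_nonneg hnn0 hL0.le), div_lt_iff₀ hL0]
    have h1 : L * Real.exp (-(k : ℝ)) < (ε / 2) * L := by
      rw [mul_comm]
      exact mul_lt_mul_of_pos_right hk hL0
    have h2 : 16 * (1 / 2 : ℝ) ^ a * L < (ε / 2) * L := by
      apply mul_lt_mul_of_pos_right _ hL0
      linarith
    linarith
  have hna := St.nonatomic_of_wiener hmean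
  apply hno
  refine St.exists_exlike hm2 hm3 hna ⟨1, one_ne_zero, ?_⟩
  rw [hft, (hFn 1).2]
  exact_mod_cast (Real.exp_pos _).ne'

end Helper58.FXP.H83
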